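import Pool.Agent.H25.Bet.Rad

/-!
# Growth of nonamenable groups acting geometrically

JOB LP-1. Notation: `N(r) = (nb x r).card`, `|g| = dist x (g•x)`. Let `K, ε` be as in `NonAmen`.
Let `κ ≥ 1` be a natural number with `|k| ≤ κ` for `k ∈ K`. If `g ∈ nb x r`, `k ∈ K` then `g*k ∈ nb x (r+κ)`
(`|gk| ≤ |g| + |k|`), so `(1+ε) N(r) ≤ N(r+κ)` for all real `r`. By induction
`N(r - i κ) ≤ (1+ε)^(-i) N(r)`, and for `j : ℕ`, `i = j / κ` (natural division, `i κ ≤ j < (i+1) κ`),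
`N(r - j) ≤ N(r - i κ) ≤ (1+ε) θ^j N(r)` with `θ = (1+ε)^(-1/κ)` (`Real.rpow`), because
`(1+ε)^(-i) = (1+ε) (1+ε)^(-(i+1)) ≤ (1+ε) θ^j`. This is `nb_decay`.
`nb_ratio`: let `D` be from `hcoc.orbit x` (every point is within `D` of the orbit). For `r ≥ D` and
`s ≥ 0`: `N(r+s) ≤ N(r) * N(s + 2D)`: if `|g| ≤ r` write `g = g * 1`; otherwise let `z = rad x (r-D)
(g•x)`, `g'` with `dist z (g'•x) ≤ D`; then `|g'| ≤ r` and `|g'⁻¹ g| = dist (g'•x) (g•x) ≤ D + |g| - (r-D)
≤ s + 2D`. So `nb x (r+s)` is contained in the product set.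
`count_bound`: `n₀ = D`. If some `g₀` satisfies `dist z (g₀•x) ≤ D` then `dist z (k•x) ≤ n-j+M` implies
`|g₀⁻¹ k| ≤ n-j+M+D`, so the count is at most `N(n + (M'+D) - j) ≤ C₀ θ^j N(n+M'+D) ≤ C θ^j N(n)`,
`M' = max M 0`.
`nb_tendsto`: `N(r+κ) ≥ (1+ε) N(r)` and `N(0) ≥ 1` (the identity).
-/

open Set

namespace Pool.Agent.H25.Lp

open Pool.Agent.H29 Pool.Agent.H25.Bet

/-- `G` is not amenable (there are no Følner sets): for some finite `K` and `ε > 0`,
`|A K| ≥ (1+ε) |A|` for all finite `A ⊆ G`. -/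
def NonAmen (G : Type*) [Group G] : Prop :=
  ∃ (K : Finset G) (ε : ℝ), 0 < ε ∧ ∀ A : Finset G,
    (1 + ε) * A.card ≤ ({g | ∃ a ∈ A, ∃ k ∈ K, g = a * k} : Set G).ncard

variable {G X : Type*} [Group G] [MetricSpace X] [IsCAT0 X] [ProperSpace X] [MulAction G X]
  [IsIsometricSMul G X] [ProperlyDiscontinuousSMul G X]

/-- the elements moving `x` into the ball of radius `r` around `z` -/
noncomputable def near (G : Type*) {X : Type*} [Group G] [MetricSpace X] [ProperSpace X]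
    [MulAction G X] [IsIsometricSMul G X] [ProperlyDiscontinuousSMul G X] (z x : X) (r : ℝ) :
    Finset G := (finite_near (G := G) z x r).toFinset

omit [IsCAT0 X] in
lemma mem_near {z x : X} {r : ℝ} {g : G} : g ∈ near G z x r ↔ dist z (g • x) ≤ r := by
  rw [near, Set.Finite.mem_toFinset]
  rfl

omit [IsCAT0 X] in
lemma gr_mono {z x : X} {r s : ℝ} (h : r ≤ s) : ((near G z x r).card : ℝ) ≤ (near G z x s).card := by
  have h1 : near G z x r ⊆ near G z x s := fun g hg => mem_near.2 ((mem_near.1 hg).trans h)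
  exact_mod_cast Finset.card_le_card h1

omit [IsCAT0 X] in
lemma gr_step (hna : NonAmen G) (x : X) : ∃ κ : ℕ, 1 ≤ κ ∧ ∃ ε : ℝ, 0 < ε ∧ ∀ r : ℝ,
    (1 + ε) * ((near G x x r).card : ℝ) ≤ (near G x x (r + κ)).card := by
  classical
  obtain ⟨K, ε, hε, hK⟩ := hna
  obtain ⟨κ, hκ⟩ := exists_nat_ge (1 + ∑ k ∈ K, dist x (k • x))
  have hs : 0 ≤ ∑ k ∈ K, dist x (k • x) := Finset.sum_nonneg fun _ _ => dist_nonneg
  have hk : ∀ k ∈ K, dist x (k • x) ≤ κ := by
    intro k hk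
    have h1 := Finset.single_le_sum (f := fun k : G => dist x (k • x)) (fun _ _ => dist_nonneg) hk
    have h1' : dist x (k • x) ≤ ∑ k ∈ K, dist x (k • x) := h1
    linarith
  refine ⟨κ, ?_, ε, hε, fun r => ?_⟩
  · have : (1 : ℝ) ≤ κ := by linarith
    exact_mod_cast this
  · refine (hK (near G x x r)).trans ?_
    have h2 : ({g | ∃ a ∈ near G x x r, ∃ k ∈ K, g = a * k} : Set G) ⊆ (near G x x (r + κ) : Set G) := by
      rintro g ⟨a, ha, k, hk', rfl⟩
      rw [Finset.mem_coe, mem_near]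
      have h3 := mem_near.1 ha
      have h4 : dist (a • x) ((a * k) • x) = dist x (k • x) := by
        rw [mul_smul, dist_smul]
      have h5 := dist_triangle x (a • x) ((a * k) • x)
      have h6 := hk k hk'
      linarith
    have h7 := Set.ncard_le_ncard h2 (Finset.finite_toSet _)
    rw [Set.ncard_coe_finset] at h7
    exact_mod_cast h7

omit [IsCAT0 X] in
lemma gr_pow {x : X} {κ : ℕ} {ε : ℝ} (hε : 0 < ε) (h : ∀ r : ℝ,
    (1 + ε) * ((near G x x r).card : ℝ) ≤ (near G x x (r + κ)).card) (r : ℝ) (i : ℕ) :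
    (1 + ε) ^ i * ((near G x x (r - (i * κ : ℕ))).card : ℝ) ≤ (near G x x r).card := by
  induction i with
  | zero => simp
  | succ i ih =>
    have h1 := h (r - ((i + 1) * κ : ℕ))
    have e : r - (((i + 1) * κ : ℕ) : ℝ) + κ = r - ((i * κ : ℕ) : ℝ) := by
      push_cast
      ring
    rw [e] at h1
    calc (1 + ε) ^ (i + 1) * ((near G x x (r - ((i + 1) * κ : ℕ))).card : ℝ)
        = (1 + ε) ^ i * ((1 + ε) * ((near G x x (r - ((i + 1) * κ : ℕ))).card : ℝ)) := by ring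
      _ ≤ (1 + ε) ^ i * ((near G x x (r - (i * κ : ℕ))).card : ℝ) :=
          mul_le_mul_of_nonneg_left h1 (by positivity)
      _ ≤ _ := ih

/-- growth: balls of a nonamenable group -/
theorem nb_decay (hna : NonAmen G) (x : X) : ∃ θ : ℝ, 0 < θ ∧ θ < 1 ∧ ∃ C : ℝ, 0 ≤ C ∧
    ∀ (r : ℝ) (j : ℕ), ((near G x x (r - j)).card : ℝ) ≤ C * θ ^ j * (near G x x r).card := by
  obtain ⟨κ, hκ, ε, hε, h⟩ := gr_step hna x
  have hκ' : (1 : ℝ) ≤ κ := by exact_mod_cast hκ
  have hinv : (1 + ε)⁻¹ < 1 := inv_lt_one_of_one_lt₀ (by linarith)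
  have hinv0 : 0 < (1 + ε)⁻¹ := by positivity
  have hδ0 : 0 < (1 - (1 + ε)⁻¹) / κ := div_pos (by linarith) (by linarith)
  have hδ1 : (1 - (1 + ε)⁻¹) / κ < 1 := by
    rw [div_lt_one (by linarith)]
    linarith
  refine ⟨1 - (1 - (1 + ε)⁻¹) / κ, by linarith, by linarith, 1 + ε, by linarith, fun r j => ?_⟩
  set θ := 1 - (1 - (1 + ε)⁻¹) / κ with hθ
  have hθ0 : 0 < θ := by linarith
  have hθ1 : θ ≤ 1 := by linarith
  have hθκ : (1 + ε)⁻¹ ≤ θ ^ κ := by
    have h1 := one_add_mul_le_pow (a := -((1 - (1 + ε)⁻¹) / κ)) (by linarith) κ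
    have e1 : (κ : ℝ) * -((1 - (1 + ε)⁻¹) / κ) = -(1 - (1 + ε)⁻¹) := by
      field_simp
    rw [e1] at h1
    have e2 : 1 + -((1 - (1 + ε)⁻¹) / κ) = θ := by
      rw [hθ]
      ring
    rw [e2] at h1
    linarith
  set i := j / κ with hi
  have hij : i * κ ≤ j := Nat.div_mul_le_self j κ
  have hji : j ≤ κ * (i + 1) := (Nat.lt_mul_div_succ j hκ).le
  have h1 : ((near G x x (r - j)).card : ℝ) ≤ (near G x x (r - (i * κ : ℕ))).card := by
    refine gr_mono ?_
    have : ((i * κ : ℕ) : ℝ) ≤ j := by exact_mod_cast hij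
    linarith
  have h2 := gr_pow hε h r i
  have h3 : 1 ≤ (1 + ε) ^ (i + 1) * θ ^ j := by
    have h4 : (1 + ε)⁻¹ ^ (i + 1) ≤ θ ^ j := by
      calc (1 + ε)⁻¹ ^ (i + 1) ≤ (θ ^ κ) ^ (i + 1) := pow_le_pow_left₀ hinv0.le hθκ _
        _ = θ ^ (κ * (i + 1)) := by rw [pow_mul]
        _ ≤ θ ^ j := pow_le_pow_of_le_one hθ0.le hθ1 hji
    calc (1 : ℝ) = (1 + ε) ^ (i + 1) * (1 + ε)⁻¹ ^ (i + 1) := by
          rw [← mul_pow, mul_inv_cancel₀ (by linarith), one_pow]
      _ ≤ _ := mul_le_mul_of_nonneg_left h4 (by positivity)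
  have hN0 : (0 : ℝ) ≤ (near G x x (r - (i * κ : ℕ))).card := Nat.cast_nonneg _
  calc ((near G x x (r - j)).card : ℝ) ≤ (near G x x (r - (i * κ : ℕ))).card := h1
    _ = 1 * ((near G x x (r - (i * κ : ℕ))).card : ℝ) := by ring
    _ ≤ ((1 + ε) ^ (i + 1) * θ ^ j) * ((near G x x (r - (i * κ : ℕ))).card : ℝ) :=
        mul_le_mul_of_nonneg_right h3 hN0
    _ = (1 + ε) * θ ^ j * ((1 + ε) ^ i * ((near G x x (r - (i * κ : ℕ))).card : ℝ)) := by ring
    _ ≤ (1 + ε) * θ ^ j * ((near G x x r).card : ℝ) :=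
        mul_le_mul_of_nonneg_left h2 (by positivity)

theorem nb_ratio (hcoc : Cocompact G X) (x : X) : ∃ D : ℝ, 0 ≤ D ∧ ∀ s : ℝ, 0 ≤ s → ∃ C : ℝ, 0 ≤ C ∧
    ∀ r : ℝ, D ≤ r → ((near G x x (r + s)).card : ℝ) ≤ C * (near G x x r).card := by
  classical
  obtain ⟨R, hR⟩ := hcoc.orbit x
  refine ⟨max R 0, le_max_right _ _, fun s hs => ⟨((near G x x (s + 2 * max R 0)).card : ℝ),
    Nat.cast_nonneg _, fun r hr => ?_⟩⟩
  set D := max R 0 with hD
  have hD0 : 0 ≤ D := le_max_right _ _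
  have hRD : R ≤ D := le_max_left _ _
  have hsub : near G x x (r + s) ⊆
      Finset.image (fun p : G × G => p.1 * p.2) (near G x x r ×ˢ near G x x (s + 2 * D)) := by
    intro g hg
    have hg' := mem_near.1 hg
    rw [Finset.mem_image]
    by_cases h1 : dist x (g • x) ≤ r
    · refine ⟨(g, 1), Finset.mem_product.2 ⟨mem_near.2 h1, mem_near.2 ?_⟩, mul_one g⟩
      rw [one_smul, dist_self]
      linarith
    · push Not at h1
      have h2 : r - D ≤ dist x (g • x) := by linarith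
      have h3 := dist_rad (x := x) (u := g • x) (t := r - D) (by linarith) h2
      have h4 := dist_rad_right (x := x) (u := g • x) (t := r - D) (by linarith) h2
      obtain ⟨g', hg1⟩ := hR (rad x (r - D) (g • x))
      have h5 := dist_triangle x (rad x (r - D) (g • x)) (g' • x)
      have h6 := dist_triangle (g' • x) (rad x (r - D) (g • x)) (g • x)
      rw [dist_comm (g' • x) (rad x (r - D) (g • x))] at h6
      refine ⟨(g', g'⁻¹ * g), Finset.mem_product.2 ⟨mem_near.2 (by linarith), mem_near.2 ?_⟩, ?_⟩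
      · have e : dist x ((g'⁻¹ * g) • x) = dist (g' • x) (g • x) := by
          rw [mul_smul, ← dist_smul g' x (g'⁻¹ • g • x), smul_inv_smul]
        show dist x ((g'⁻¹ * g) • x) ≤ _
        rw [e]
        linarith
      · show g' * (g'⁻¹ * g) = g
        rw [mul_inv_cancel_left]
  have h1 := (Finset.card_le_card hsub).trans Finset.card_image_le
  rw [Finset.card_product] at h1
  have h2 : ((near G x x (r + s)).card : ℝ) ≤ (near G x x r).card * (near G x x (s + 2 * D)).card := by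
    exact_mod_cast h1
  linarith

theorem nb_tendsto (hna : NonAmen G) (x : X) :
    Filter.Tendsto (fun n : ℕ => ((near G x x n).card : ℝ)) Filter.atTop Filter.atTop := by
  obtain ⟨κ, hκ, ε, hε, h⟩ := gr_step hna x
  rw [Filter.tendsto_atTop]
  intro b
  obtain ⟨i, hi⟩ := pow_unbounded_of_one_lt b (show (1 : ℝ) < 1 + ε by linarith)
  filter_upwards [Filter.eventually_ge_atTop (i * κ)] with n hn
  have h1 := gr_pow hε h (i * κ : ℕ) i
  rw [sub_self] at h1
  have h2 : (1 : ℝ) ≤ (near G x x 0).card := by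
    have : 1 ≤ (near G x x 0).card := by
      rw [Nat.one_le_iff_ne_zero, Finset.card_ne_zero]
      exact ⟨1, mem_near.2 (by rw [one_smul, dist_self])⟩
    exact_mod_cast this
  have h3 : ((near G x x (i * κ : ℕ)).card : ℝ) ≤ (near G x x n).card := gr_mono (by exact_mod_cast hn)
  have h4 : (1 + ε) ^ i * 1 ≤ (1 + ε) ^ i * ((near G x x 0).card : ℝ) :=
    mul_le_mul_of_nonneg_left h2 (by positivity)
  linarith

/-- the number of elements of the ball of radius `n` which are near a given point -/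
theorem count_bound (hcoc : Cocompact G X) (hna : NonAmen G) (x : X) : ∃ θ : ℝ, 0 < θ ∧ θ < 1 ∧
    ∃ n₀ : ℝ, ∀ M : ℝ, ∃ C : ℝ, 0 ≤ C ∧ ∀ n : ℝ, n₀ ≤ n → ∀ (j : ℕ) (z : X),
      ((near G z x (n - j + M)).card : ℝ) ≤ C * θ ^ j * (near G x x n).card := by
  classical
  obtain ⟨θ, hθ0, hθ1, C₀, hC₀, hdec⟩ := nb_decay hna x
  obtain ⟨D, hD, hrat⟩ := nb_ratio hcoc x
  obtain ⟨R, hR⟩ := hcoc.orbit x
  refine ⟨θ, hθ0, hθ1, D, fun M => ?_⟩
  obtain ⟨C₁, hC₁, hr⟩ := hrat (|M| + |R|) (by positivity)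
  refine ⟨C₀ * C₁, mul_nonneg hC₀ hC₁, fun n hn j z => ?_⟩
  obtain ⟨g₀, hg₀⟩ := hR z
  have h1 : ((near G z x (n - j + M)).card : ℝ) ≤ (near G x x (n + (|M| + |R|) - j)).card := by
    have h2 : (near G z x (n - j + M)).card ≤ (near G x x (n + (|M| + |R|) - j)).card := by
      refine Finset.card_le_card_of_injOn (fun k => g₀⁻¹ * k) ?_ ?_
      · intro k hk
        have hk' : dist z (k • x) ≤ n - j + M := mem_near.1 hk
        refine mem_near.2 ?_
        have e : dist x ((g₀⁻¹ * k) • x) = dist (g₀ • x) (k • x) := by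
          rw [mul_smul, ← dist_smul g₀ x (g₀⁻¹ • k • x), smul_inv_smul]
        show dist x ((g₀⁻¹ * k) • x) ≤ _
        rw [e]
        have h3 := dist_triangle (g₀ • x) z (k • x)
        rw [dist_comm (g₀ • x) z] at h3
        have h4 := le_abs_self M
        have h5 := le_abs_self R
        linarith
      · intro a _ b _ hab
        exact mul_left_cancel hab
    exact_mod_cast h2
  have h3 := hdec (n + (|M| + |R|)) j
  have h4 := hr n hn
  calc ((near G z x (n - j + M)).card : ℝ) ≤ (near G x x (n + (|M| + |R|) - j)).card := h1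
    _ ≤ C₀ * θ ^ j * ((near G x x (n + (|M| + |R|))).card : ℝ) := h3
    _ ≤ C₀ * θ ^ j * (C₁ * ((near G x x n).card : ℝ)) :=
        mul_le_mul_of_nonneg_left h4 (by positivity)
    _ = C₀ * C₁ * θ ^ j * ((near G x x n).card : ℝ) := by ring

end Pool.Agent.H25.Lp
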