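import Pool.Agent.H25.Lp.Label

/-!
# Labelled chains on the sphere from the nearest point of a segment to its end

JOB LP-4. `half_sector`: put `R = dist x z`, `ℓ = dist z v`, `ρ = R/t ≥ 1`. First part: points `z_i` on
`[z,v]` at distance `i ρ` from `z`,
`i = 0, ..., I` with `I ρ ≤ min(R, ℓ) < (I+1) ρ` (so `I ≤ t`); consecutive radial projections are at
distance `≤ (t/R) ρ = 1` by `rad_scale`; labels `c_i = t * min 1 (iρ/R) / 4 = i/4`. If `ℓ ≤ R` append
`v` itself (distance from `z_I` less than `ρ`; label `I/4`, allowed as `t * min 1 (ℓ/R)/4 ≥ I/4`). If `ℓ > R`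
append the point `y` at distance `R` from `z`, and then the chain `radial_chain'` for `[y, v]` (its points are
`rad x t (pt y v a)`, and `pt y v a` is a point of `[z,v]` at distance
`≥ R` from `z`, so label `t/4` is allowed; at most `2πt+2` points). The distances to `rad x T v` are those
of `label_bound`. Number of indices with label `≤ j`: at most `4j+2` in the first part; in the second part `0` if
`t/4 > j` and at most `2πt+3 ≤ 8πj+3` otherwise. So `60 (j+1)` is enough.
-/

open Set

namespace Pool.Agent.H25.Lp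

open Pool.Agent.H29 Pool.Agent.H25.Bet Real

variable {X : Type*} [MetricSpace X] [IsCAT0 X]

/-- labelled chains on the sphere -/
def Lab (x : X) (t T : ℝ) (v p q : X) (n : ℕ) (w : ℕ → X) (c : ℕ → ℝ) (B : ℕ → ℝ) : Prop :=
  w 0 = p ∧ w n = q ∧ (∀ i < n, dist (w i) (w (i + 1)) ≤ 1) ∧ (∀ i ≤ n, dist x (w i) = t) ∧
    (∀ i ≤ n, 0 ≤ c i) ∧ (∀ i ≤ n, dist (w i) (rad x T v) ≤ T - c i + 1) ∧
    ∀ j : ℕ, (((Finset.range (n + 1)).filter fun i => c i ≤ j).card : ℝ) ≤ B j

lemma lab_glue {x v p q p' q' : X} {t T : ℝ} {n₁ n₂ : ℕ} {w₁ w₂ : ℕ → X} {c₁ c₂ B₁ B₂ : ℕ → ℝ}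
    (h₁ : Lab x t T v p q n₁ w₁ c₁ B₁) (h₂ : Lab x t T v p' q' n₂ w₂ c₂ B₂) (h : dist q p' ≤ 1) :
    Lab x t T v p q' (n₁ + 1 + n₂) (fun i => if i ≤ n₁ then w₁ i else w₂ (i - (n₁ + 1)))
      (fun i => if i ≤ n₁ then c₁ i else c₂ (i - (n₁ + 1))) (fun j => B₁ j + B₂ j) := by
  obtain ⟨a0, a1, a2, a3, a4, a5, a6⟩ := h₁
  obtain ⟨b0, b1, b2, b3, b4, b5, b6⟩ := h₂
  refine ⟨?_, ?_, ?_, ?_, ?_, ?_, ?_⟩
  · simp [a0]
  · have e : ¬ (n₁ + 1 + n₂ ≤ n₁) := by omega
    have e2 : n₁ + 1 + n₂ - (n₁ + 1) = n₂ := by omega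
    simp only [e, if_false, e2, b1]
  · intro i hi
    dsimp only
    by_cases h1 : i + 1 ≤ n₁
    · rw [if_pos (by omega), if_pos h1]
      exact a2 i (by omega)
    · by_cases h2 : i ≤ n₁
      · have h3 : i = n₁ := by omega
        subst h3
        rw [if_pos le_rfl, if_neg (by omega), Nat.sub_self, b0, a1]
        exact h
      · rw [if_neg h2, if_neg h1]
        have : i + 1 - (n₁ + 1) = (i - (n₁ + 1)) + 1 := by omega
        rw [this]
        exact b2 _ (by omega)
  · intro i hi
    dsimp only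
    split_ifs with h1
    · exact a3 i h1
    · exact b3 _ (by omega)
  · intro i hi
    dsimp only
    split_ifs with h1
    · exact a4 i h1
    · exact b4 _ (by omega)
  · intro i hi
    dsimp only
    split_ifs with h1
    · exact a5 i h1
    · exact b5 _ (by omega)
  · intro j
    have hsub : (Finset.range (n₁ + 1 + n₂ + 1)).filter
        (fun i => (if i ≤ n₁ then c₁ i else c₂ (i - (n₁ + 1))) ≤ (j : ℝ)) ⊆
        ((Finset.range (n₁ + 1)).filter (fun i => c₁ i ≤ j)) ∪
        (((Finset.range (n₂ + 1)).filter (fun i => c₂ i ≤ j)).image (fun i => i + (n₁ + 1))) := by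
      intro i hi
      rw [Finset.mem_filter, Finset.mem_range] at hi
      obtain ⟨hi1, hi2⟩ := hi
      rw [Finset.mem_union, Finset.mem_filter, Finset.mem_range, Finset.mem_image]
      by_cases h1 : i ≤ n₁
      · left
        rw [if_pos h1] at hi2
        exact ⟨by omega, hi2⟩
      · right
        rw [if_neg h1] at hi2
        refine ⟨i - (n₁ + 1), ?_, by omega⟩
        rw [Finset.mem_filter, Finset.mem_range]
        exact ⟨by omega, hi2⟩
    have h1 := (Finset.card_le_card hsub).trans (Finset.card_union_le _ _)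
    have h2 := Finset.card_image_le (s := (Finset.range (n₂ + 1)).filter (fun i => c₂ i ≤ (j : ℝ)))
      (f := fun i => i + (n₁ + 1))
    have h3 : (((Finset.range (n₁ + 1 + n₂ + 1)).filter
        (fun i => (if i ≤ n₁ then c₁ i else c₂ (i - (n₁ + 1))) ≤ (j : ℝ))).card : ℝ) ≤
        (((Finset.range (n₁ + 1)).filter (fun i => c₁ i ≤ (j : ℝ))).card : ℝ) +
        (((Finset.range (n₂ + 1)).filter (fun i => c₂ i ≤ (j : ℝ))).card : ℝ) := by
      exact_mod_cast h1.trans (Nat.add_le_add_left h2 _)
    exact h3.trans (add_le_add (a6 j) (b6 j))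

theorem half_sector {x z v : X} {t T : ℝ} (ht : 1 ≤ t) (hT : t ^ 2 ≤ T) (hz : T ≤ dist x z)
    (hnear : ∀ s ∈ Icc (0 : ℝ) 1, dist x z ≤ dist x (pt z v s)) :
    ∃ (n : ℕ) (w : ℕ → X) (c : ℕ → ℝ), w 0 = rad x t z ∧ w n = rad x t v ∧
      (∀ i < n, dist (w i) (w (i + 1)) ≤ 1) ∧ (∀ i ≤ n, dist x (w i) = t) ∧ (∀ i ≤ n, 0 ≤ c i) ∧
      (∀ i ≤ n, dist (w i) (rad x T v) ≤ T - c i + 1) ∧
      ∀ j : ℕ, (((Finset.range (n + 1)).filter fun i => c i ≤ j).card : ℝ) ≤ 60 * (j + 1) := by
  have hR : T ≤ dist x z := hz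
  have ht0 : (0 : ℝ) < t := by linarith
  have htT : t ≤ T := by nlinarith
  have hT1 : (1 : ℝ) ≤ T := by linarith
  have hRt : t ^ 2 ≤ dist x z := hT.trans hz
  have htR : t ≤ dist x z := htT.trans hz
  have hR0 : 0 < dist x z := by linarith
  obtain ⟨ρ, hρ⟩ : ∃ ρ, ρ = dist x z / t := ⟨_, rfl⟩
  have hρt : ρ * t = dist x z := by rw [hρ]; field_simp
  have hρ0 : 0 < ρ := by rw [hρ]; positivity
  have hρR : ρ / dist x z = 1 / t := by rw [← hρt]; field_simp
  have hℓ0 : 0 ≤ dist z v := dist_nonneg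
  obtain ⟨I, hI⟩ : ∃ I, I = ⌊min (dist x z) (dist z v) / ρ⌋₊ := ⟨_, rfl⟩
  have hm0 : 0 ≤ min (dist x z) (dist z v) / ρ := by positivity
  have hI1 : (I : ℝ) * ρ ≤ min (dist x z) (dist z v) := by
    have := Nat.floor_le hm0
    rw [← hI, le_div_iff₀ hρ0] at this
    exact this
  have hI2 : min (dist x z) (dist z v) < (I + 1) * ρ := by
    have := Nat.lt_floor_add_one (min (dist x z) (dist z v) / ρ)
    rw [← hI, div_lt_iff₀ hρ0] at this
    exact this
  have hIR : (I : ℝ) * ρ ≤ dist x z := hI1.trans (min_le_left _ _)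
  have hIℓ : (I : ℝ) * ρ ≤ dist z v := hI1.trans (min_le_right _ _)
  have hIt : (I : ℝ) ≤ t := by
    by_contra hc
    push Not at hc
    nlinarith
  have hiℓ : ∀ i ≤ I, (i : ℝ) * ρ ≤ dist z v := by
    intro i hi
    have : (i : ℝ) ≤ I := by exact_mod_cast hi
    exact (mul_le_mul_of_nonneg_right this hρ0.le).trans hIℓ
  have hmul : ∀ i ≤ I, (i : ℝ) * ρ / dist z v * dist z v = i * ρ := by
    intro i hi
    rcases eq_or_lt_of_le hℓ0 with h | h
    · have h1 := hiℓ i hi
      rw [← h] at h1 ⊢
      have h2 : (0 : ℝ) ≤ i * ρ := by positivity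
      rw [mul_zero]
      linarith
    · field_simp
  have hmem : ∀ i ≤ I, (i : ℝ) * ρ / dist z v ∈ Icc (0 : ℝ) 1 := fun i hi =>
    ⟨by positivity, div_le_one_of_le₀ (hiℓ i hi) hℓ0⟩
  -- the first part
  have hfirst : Lab x t T v (rad x t z) (rad x t (pt z v ((I : ℝ) * ρ / dist z v))) I
      (fun i => rad x t (pt z v ((i : ℝ) * ρ / dist z v))) (fun i => (i : ℝ) / 4)
      (fun j => 4 * (j : ℝ) + 1) := by
    refine ⟨?_, rfl, ?_, ?_, ?_, ?_, ?_⟩
    · simp
    · intro i hi
      have h1 := hmem i hi.le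
      have h2 := hmem (i + 1) hi
      have h3 := rad_scale (u := pt z v ((i : ℝ) * ρ / dist z v))
        (v := pt z v (((i + 1 : ℕ) : ℝ) * ρ / dist z v)) ht0 htR (hnear _ h1) (hnear _ h2)
      refine h3.trans ?_
      rw [dist_pt_pt z v h1 h2]
      have e : |(i : ℝ) * ρ / dist z v - ((i + 1 : ℕ) : ℝ) * ρ / dist z v| * dist z v = ρ := by
        have e1 := hmul i hi.le
        have e2 := hmul (i + 1) hi
        have e3 : ((i : ℝ) * ρ / dist z v - ((i + 1 : ℕ) : ℝ) * ρ / dist z v) * dist z v = -ρ := by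
          rw [sub_mul, e1, e2]; push_cast; ring
        rw [← abs_of_nonneg hℓ0, abs_of_nonneg hℓ0]
        calc |(i : ℝ) * ρ / dist z v - ((i + 1 : ℕ) : ℝ) * ρ / dist z v| * dist z v
            = |((i : ℝ) * ρ / dist z v - ((i + 1 : ℕ) : ℝ) * ρ / dist z v) * dist z v| := by
              rw [abs_mul, abs_of_nonneg hℓ0]
          _ = ρ := by rw [e3, abs_neg, abs_of_pos hρ0]
      rw [e, ← hρt]
      have : t / (ρ * t) * ρ = 1 := by field_simp
      exact this.le
    · intro i hi
      exact dist_rad ht0.le (htR.trans (hnear _ (hmem i hi)))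
    · intro i hi
      positivity
    · intro i hi
      have h1 := label_bound ht hT hz hnear (hmem i hi)
      rw [hmul i hi] at h1
      have h2 : (i : ℝ) * ρ / dist x z = i / t := by
        rw [mul_div_assoc, hρR, mul_one_div]
      have h3 : (i : ℝ) ≤ t := le_trans (by exact_mod_cast hi) hIt
      have h4 : (i : ℝ) / t ≤ 1 := div_le_one_of_le₀ h3 ht0.le
      rw [h2, min_eq_right h4] at h1
      have h5 : t * ((i : ℝ) / t / 4) = i / 4 := by field_simp
      rw [h5] at h1
      exact h1
    · intro j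
      have h1 : ((Finset.range (I + 1)).filter fun i : ℕ => (i : ℝ) / 4 ≤ (j : ℝ)) ⊆
          Finset.range (4 * j + 1) := by
        intro i hi
        rw [Finset.mem_filter] at hi
        rw [Finset.mem_range]
        have h2 : (i : ℝ) ≤ 4 * j := by linarith [hi.2]
        have h3 : i ≤ 4 * j := by exact_mod_cast h2
        omega
      have h2 := Finset.card_le_card h1
      rw [Finset.card_range] at h2
      have h3 : (((Finset.range (I + 1)).filter fun i : ℕ => (i : ℝ) / 4 ≤ (j : ℝ)).card : ℝ) ≤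
          ((4 * j + 1 : ℕ) : ℝ) := by exact_mod_cast h2
      push_cast at h3
      exact h3
  have hIm := hmem I le_rfl
  rcases le_or_gt (dist z v) (dist x z) with hc | hc
  · -- the end `v`
    rw [min_eq_right hc] at hI2
    have hsecond : Lab x t T v (rad x t v) (rad x t v) 0 (fun _ => rad x t v)
        (fun _ => (I : ℝ) / 4) (fun _ => 1) := by
      refine ⟨rfl, rfl, fun i hi => absurd hi (Nat.not_lt_zero _), ?_, ?_, ?_, ?_⟩
      · intro i _
        have := hnear 1 one_mem_I
        rw [pt_one] at this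
        exact dist_rad ht0.le (htR.trans this)
      · intro i _
        positivity
      · intro i _
        have h1 := label_bound ht hT hz hnear one_mem_I
        rw [pt_one, one_mul, min_eq_right (div_le_one_of_le₀ hc hR0.le)] at h1
        have h2 : (I : ℝ) ≤ t * (dist z v / dist x z) := by
          rw [← hρt]
          have : t * (dist z v / (ρ * t)) = dist z v / ρ := by field_simp
          rw [this, le_div_iff₀ hρ0]
          exact hIℓ
        dsimp only
        linarith
      · intro j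
        have := Finset.card_filter_le (Finset.range (0 + 1)) fun i : ℕ => (I : ℝ) / 4 ≤ (j : ℝ)
        rw [Finset.card_range] at this
        have h3 : (((Finset.range (0 + 1)).filter fun i : ℕ => (I : ℝ) / 4 ≤ (j : ℝ)).card : ℝ) ≤
            ((0 + 1 : ℕ) : ℝ) := by exact_mod_cast this
        refine h3.trans ?_
        simp
    have hglue : dist (rad x t (pt z v ((I : ℝ) * ρ / dist z v))) (rad x t v) ≤ 1 := by
      have h1 := rad_scale (u := pt z v ((I : ℝ) * ρ / dist z v)) (v := v) ht0 htR (hnear _ hIm)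
        (by have := hnear 1 one_mem_I; rwa [pt_one] at this)
      refine h1.trans ?_
      rw [dist_pt_right z v hIm, sub_mul, one_mul, hmul I le_rfl]
      have h2 : dist z v - I * ρ ≤ ρ := by linarith
      have h3 : t / dist x z * (dist z v - I * ρ) ≤ t / dist x z * ρ :=
        mul_le_mul_of_nonneg_left h2 (by positivity)
      refine h3.trans ?_
      rw [← hρt]
      have : t / (ρ * t) * ρ = 1 := by field_simp
      exact this.le
    obtain ⟨g0, g1, g2, g3, g4, g5, g6⟩ := lab_glue hfirst hsecond hglue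
    refine ⟨_, _, _, g0, g1, g2, g3, g4, g5, fun j => (g6 j).trans ?_⟩
    have : (0 : ℝ) ≤ j := by positivity
    dsimp only
    linarith
  · -- the point `y` at distance `R` from `z` and the radial chain
    rw [min_eq_left hc.le] at hI2
    have hℓp : 0 < dist z v := by linarith
    obtain ⟨b, hb⟩ : ∃ b, b = dist x z / dist z v := ⟨_, rfl⟩
    have hbℓ : b * dist z v = dist x z := by rw [hb]; field_simp
    have hbI : b ∈ Icc (0 : ℝ) 1 := by
      rw [hb]
      exact ⟨by positivity, div_le_one_of_le₀ hc.le hℓ0⟩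
    have hpts : ∀ a ∈ Icc (0 : ℝ) 1, ∃ a' ∈ Icc (0 : ℝ) 1, b ≤ a' ∧
        pt (pt z v b) v a = pt z v a' := by
      intro a ha
      have h1 := pt_pt_pt z v hbI one_mem_I ha
      rw [pt_one] at h1
      have h2 : (1 - a) * b + a * 1 = b + a * (1 - b) := by ring
      refine ⟨_, ?_, ?_, h1⟩
      · have := hbI.1; have := hbI.2; have := ha.1; have := ha.2
        constructor <;> nlinarith
      · have := hbI.1; have := hbI.2; have := ha.1; have := ha.2
        nlinarith
    have hfar : ∀ a ∈ Icc (0 : ℝ) 1, t ≤ dist x (pt (pt z v b) v a) := by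
      intro a ha
      obtain ⟨a', ha', _, e⟩ := hpts a ha
      rw [e]
      exact htR.trans (hnear _ ha')
    obtain ⟨n', hn', w', w0, wn, w1, w2⟩ := radial_chain' ht0 hfar
    have hsecond : Lab x t T v (rad x t (pt z v b)) (rad x t v) n' w'
        (fun _ => t / 4) (fun j => 8 * π * j + 2) := by
      refine ⟨w0, wn, w1, ?_, ?_, ?_, ?_⟩
      · intro i hi
        obtain ⟨a, ha, e⟩ := w2 i hi
        rw [e]
        exact dist_rad ht0.le (hfar a ha)
      · intro i _
        positivity
      · intro i hi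
        obtain ⟨a, ha, e⟩ := w2 i hi
        obtain ⟨a', ha', hba, e'⟩ := hpts a ha
        have h1 := label_bound ht hT hz hnear ha'
        rw [e, e']
        have h2 : 1 ≤ a' * dist z v / dist x z := by
          rw [le_div_iff₀ hR0, one_mul, ← hbℓ]
          exact mul_le_mul_of_nonneg_right hba hℓ0
        rw [min_eq_left h2] at h1
        dsimp only
        linarith
      · intro j
        by_cases h1 : t / 4 ≤ (j : ℝ)
        · have h2 := Finset.card_filter_le (Finset.range (n' + 1)) fun i : ℕ => t / 4 ≤ (j : ℝ)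
          rw [Finset.card_range] at h2
          have h3 : (((Finset.range (n' + 1)).filter fun i : ℕ => t / 4 ≤ (j : ℝ)).card : ℝ) ≤
              ((n' + 1 : ℕ) : ℝ) := by exact_mod_cast h2
          push_cast at h3
          have h4 : π * t ≤ π * (4 * j) := mul_le_mul_of_nonneg_left (by linarith) pi_pos.le
          dsimp only at h3 ⊢
          linarith
        · have h2 : ((Finset.range (n' + 1)).filter fun i : ℕ => t / 4 ≤ (j : ℝ)) = ∅ := by
            rw [Finset.filter_eq_empty_iff]
            intro i _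
            exact h1
          have h3 : (0 : ℝ) ≤ 8 * π * j + 2 := by positivity
          dsimp only at h2 ⊢
          rw [h2]
          simpa using h3
    have hglue : dist (rad x t (pt z v ((I : ℝ) * ρ / dist z v))) (rad x t (pt z v b)) ≤ 1 := by
      have h1 := rad_scale (u := pt z v ((I : ℝ) * ρ / dist z v)) (v := pt z v b) ht0 htR
        (hnear _ hIm) (hnear _ hbI)
      refine h1.trans ?_
      rw [dist_pt_pt z v hIm hbI]
      have e : |(I : ℝ) * ρ / dist z v - b| * dist z v = dist x z - I * ρ := by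
        have e1 := hmul I le_rfl
        have e3 : ((I : ℝ) * ρ / dist z v - b) * dist z v = -(dist x z - I * ρ) := by
          rw [sub_mul, e1, hbℓ]; ring
        calc |(I : ℝ) * ρ / dist z v - b| * dist z v
            = |((I : ℝ) * ρ / dist z v - b) * dist z v| := by
              rw [abs_mul, abs_of_nonneg hℓ0]
          _ = dist x z - I * ρ := by rw [e3, abs_neg, abs_of_nonneg (by linarith)]
      rw [e]
      have h2 : dist x z - I * ρ ≤ ρ := by linarith
      have h3 : t / dist x z * (dist x z - I * ρ) ≤ t / dist x z * ρ :=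
        mul_le_mul_of_nonneg_left h2 (by positivity)
      refine h3.trans ?_
      rw [← hρt]
      have : t / (ρ * t) * ρ = 1 := by field_simp
      exact this.le
    obtain ⟨g0, g1, g2, g3, g4, g5, g6⟩ := lab_glue hfirst hsecond hglue
    refine ⟨_, _, _, g0, g1, g2, g3, g4, g5, fun j => (g6 j).trans ?_⟩
    have h1 : (0 : ℝ) ≤ j := by positivity
    have h2 : π * j ≤ 4 * j := mul_le_mul_of_nonneg_right pi_le_four h1
    dsimp only
    linarith

end Pool.Agent.H25.Lp
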