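import Mathlib

/-!
# Averages along families of labelled chains

JOB LP-5. Proof of `weight_sum`. Elementary inequality: for `b ≥ 0`, `λ > 0`, `p ≥ 1`:
`b ≤ λ + λ^(1-p) b^p` (if `b > λ` then `b = b^p b^(1-p) ≤ b^p λ^(1-p)`). For a step from `g` to `g h`,
`h ∈ F`, `|f (g h) - f g|^p ≤ ep f F p g`. Put `λ_j = μ θ^(j/p)`. Then
`∑_{k} |f (g k 0) - f (g k (n k))| ≤ ∑_k ∑_{i < n k} (λ_{m k i} + λ_{m k i}^(1-p) ep (g k i))`. First
part: `≤ ∑_j λ_j C (j+1) B` (only finitely many labels `j` occur; the series `∑ (j+1) θ^(j/p)`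
converges). Second part: for each label `j`: `∑_k ∑_{i : m k i = j} ep (g k i) = ∑_{g₀} ep g₀ *
#{k | ∃ i < n k, g k i = g₀ ∧ m k i = j}` (for each `k, g₀` there is at most one `i` by injectivity)
`≤ κ B θ^j w`, and `λ_j^(1-p) θ^j = μ^(1-p) θ^(j/p)`. So
`C' = max (C ∑ (j+1) θ^(j/p)) (∑ θ^(j/p))` works.
-/

open Finset

namespace Pool.Agent.H25.Lp

variable {G : Type*} [Group G]

/-- the `p`-energy of `f` at `g` -/
noncomputable def ep (f : G → ℝ) (F : Finset G) (p : ℝ) (g : G) : ℝ :=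
  ∑ h ∈ F, |f (g * h) - f g| ^ p

theorem ep_nonneg (f : G → ℝ) (F : Finset G) (p : ℝ) (g : G) : 0 ≤ ep f F p g :=
  Finset.sum_nonneg fun _ _ => Real.rpow_nonneg (abs_nonneg _) p

theorem le_add_rpow {b l p : ℝ} (hb : 0 ≤ b) (hl : 0 < l) (hp : 1 ≤ p) :
    b ≤ l + l ^ (1 - p) * b ^ p := by
  have h0 : 0 ≤ l ^ (1 - p) * b ^ p := mul_nonneg (Real.rpow_nonneg hl.le _) (Real.rpow_nonneg hb _)
  by_cases h : b ≤ l
  · linarith
  · push Not at h
    have hb0 : 0 < b := hl.trans h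
    have h1 : b = b ^ (1 - p) * b ^ p := by
      rw [← Real.rpow_add hb0]; simp
    have h2 : b ^ (1 - p) ≤ l ^ (1 - p) := Real.rpow_le_rpow_of_nonpos hl h.le (by linarith)
    have h3 := mul_le_mul_of_nonneg_right h2 (Real.rpow_nonneg hb p)
    rw [← h1] at h3
    linarith

omit [Group G] in
/-- telescoping along a chain -/
theorem chain_le (f : G → ℝ) (a : ℕ → G) (n : ℕ) :
    |f (a 0) - f (a n)| ≤ ∑ i ∈ range n, |f (a (i + 1)) - f (a i)| := by
  induction n with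
  | zero => simp
  | succ n ih =>
    rw [Finset.sum_range_succ]
    have h1 : f (a 0) - f (a (n + 1)) = (f (a 0) - f (a n)) - (f (a (n + 1)) - f (a n)) := by ring
    have h2 := abs_sub (f (a 0) - f (a n)) (f (a (n + 1)) - f (a n))
    rw [h1]
    linarith

/-- one step -/
theorem step_le (f : G → ℝ) {F : Finset G} {p : ℝ} (hp : 1 ≤ p) {x y : G} (h : x⁻¹ * y ∈ F) {l : ℝ}
    (hl : 0 < l) : |f y - f x| ≤ l + l ^ (1 - p) * ep f F p x := by
  have h1 : |f y - f x| ^ p ≤ ep f F p x := by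
    have h2 := Finset.single_le_sum (f := fun h => |f (x * h) - f x| ^ p)
      (fun h _ => Real.rpow_nonneg (abs_nonneg _) p) h
    simpa [ep] using h2
  have h3 := le_add_rpow (abs_nonneg (f y - f x)) hl hp
  have h4 := mul_le_mul_of_nonneg_left h1 (Real.rpow_nonneg hl.le (1 - p))
  linarith

open Classical in
theorem weight_sum {p : ℝ} (hp : 1 ≤ p) {θ : ℝ} (hθ0 : 0 < θ) (hθ1 : θ < 1) {C : ℝ}
    (hC : 0 ≤ C) : ∃ C' : ℝ, 0 ≤ C' ∧ ∀ (f : G → ℝ) (F : Finset G) (S : Finset G) (B κ w μ : ℝ)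
      (n : G → ℕ) (g : G → ℕ → G) (m : G → ℕ → ℕ), 0 < μ → 0 ≤ κ → (S.card : ℝ) ≤ B →
      (∀ k ∈ S, ∀ i < n k, (g k i)⁻¹ * g k (i + 1) ∈ F) →
      (∀ k ∈ S, ∀ i < n k, ∀ j < n k, g k i = g k j → i = j) →
      (∀ k ∈ S, ∀ j : ℕ, (((range (n k)).filter fun i => m k i = j).card : ℝ) ≤ C * (j + 1)) →
      (∀ (g₀ : G) (j : ℕ), ((S.filter fun k => ∃ i < n k, g k i = g₀ ∧ m k i = j).card : ℝ) ≤
        κ * B * θ ^ j) →
      (∀ A : Finset G, (∀ g₀ ∈ A, ∃ k ∈ S, ∃ i < n k, g k i = g₀) → ∑ g₀ ∈ A, ep f F p g₀ ≤ w) →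
      ∑ k ∈ S, |f (g k 0) - f (g k (n k))| ≤ B * C' * (μ + μ ^ (1 - p) * κ * w) := by
  have hp0 : 0 < p := by linarith
  obtain ⟨ρ, hρ⟩ : ∃ ρ : ℝ, ρ = θ ^ (1 / p) := ⟨_, rfl⟩
  have hρ0 : 0 < ρ := by rw [hρ]; exact Real.rpow_pos_of_pos hθ0 _
  have hρ1 : ρ < 1 := by rw [hρ]; exact Real.rpow_lt_one hθ0.le hθ1 (by positivity)
  have hρp : ∀ j : ℕ, (ρ ^ j) ^ p = θ ^ j := by
    intro j
    rw [hρ, ← Real.rpow_natCast, ← Real.rpow_mul hθ0.le, ← Real.rpow_mul hθ0.le, ← Real.rpow_natCast θ j]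
    congr 1
    field_simp
  have hs1 : Summable fun j : ℕ => ((j : ℝ) + 1) * ρ ^ j := by
    have h1 : Summable fun j : ℕ => (j : ℝ) ^ 1 * ρ ^ j :=
      summable_pow_mul_geometric_of_norm_lt_one 1 (by rw [Real.norm_eq_abs, abs_of_pos hρ0]; exact hρ1)
    have h2 : Summable fun j : ℕ => ρ ^ j := summable_geometric_of_lt_one hρ0.le hρ1
    refine (h1.add h2).congr fun j => ?_
    ring
  have hs2 : Summable fun j : ℕ => ρ ^ j := summable_geometric_of_lt_one hρ0.le hρ1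
  refine ⟨max (C * ∑' j : ℕ, ((j : ℝ) + 1) * ρ ^ j) (∑' j : ℕ, ρ ^ j), ?_, ?_⟩
  · exact le_max_of_le_right (tsum_nonneg fun j => by positivity)
  intro f F S B κ w μ n g m hμ hκ hSB hstep hinj hcnt hcnt2 hw
  have hB : 0 ≤ B := le_trans (Nat.cast_nonneg _) hSB
  have hw0 : 0 ≤ w := by simpa using hw ∅ (by simp)
  -- a bound for the labels
  obtain ⟨J, hJ⟩ : ∃ J : ℕ, ∀ k ∈ S, ∀ i ∈ range (n k), m k i ∈ range J := by
    refine ⟨(S.sup fun k => (range (n k)).sup fun i => m k i) + 1, fun k hk i hi => ?_⟩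
    rw [Finset.mem_range, Nat.lt_succ_iff]
    exact (Finset.le_sup (f := fun i => m k i) hi).trans
      (Finset.le_sup (f := fun k => (range (n k)).sup fun i => m k i) hk)
  have hl0 : ∀ j : ℕ, 0 < μ * ρ ^ j := fun j => mul_pos hμ (pow_pos hρ0 j)
  have hlp : ∀ j : ℕ, (μ * ρ ^ j) ^ (1 - p) * θ ^ j = μ ^ (1 - p) * ρ ^ j := by
    intro j
    rw [Real.mul_rpow hμ.le (pow_pos hρ0 j).le, ← hρp j, mul_assoc, ← Real.rpow_add (pow_pos hρ0 j)]
    congr 1
    simp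
  have hstep' : ∀ k ∈ S, |f (g k 0) - f (g k (n k))| ≤ ∑ i ∈ range (n k), (μ * ρ ^ m k i) +
      ∑ i ∈ range (n k), (μ * ρ ^ m k i) ^ (1 - p) * ep f F p (g k i) := by
    intro k hk
    refine (chain_le f (g k) (n k)).trans ?_
    rw [← Finset.sum_add_distrib]
    exact Finset.sum_le_sum fun i hi => step_le f hp (hstep k hk i (Finset.mem_range.1 hi)) (hl0 _)
  refine (Finset.sum_le_sum hstep').trans ?_
  rw [Finset.sum_add_distrib]
  -- first part
  have hA : ∑ k ∈ S, ∑ i ∈ range (n k), (μ * ρ ^ m k i) ≤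
      B * (C * ∑' j : ℕ, ((j : ℝ) + 1) * ρ ^ j) * μ := by
    have h1 : ∀ k ∈ S, ∑ i ∈ range (n k), (μ * ρ ^ m k i) ≤ μ * (C * ∑' j : ℕ, ((j : ℝ) + 1) * ρ ^ j) := by
      intro k hk
      rw [← Finset.sum_fiberwise_of_maps_to (g := fun i => m k i) (t := range J) (hJ k hk)]
      have h2 : ∀ j ∈ range J, ∑ i ∈ (range (n k)).filter (fun i => m k i = j), (μ * ρ ^ m k i) ≤
          μ * C * (((j : ℝ) + 1) * ρ ^ j) := by
        intro j hj
        have h3 : ∑ i ∈ (range (n k)).filter (fun i => m k i = j), (μ * ρ ^ m k i) =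
            ((((range (n k)).filter fun i => m k i = j).card : ℕ) : ℝ) * (μ * ρ ^ j) := by
          rw [Finset.sum_congr rfl (g := fun _ => μ * ρ ^ j) (by
            intro i hi
            rw [(Finset.mem_filter.1 hi).2]), Finset.sum_const, nsmul_eq_mul]
        rw [h3]
        have h4 := mul_le_mul_of_nonneg_right (hcnt k hk j) (hl0 j).le
        refine h4.trans (le_of_eq ?_)
        ring
      refine (Finset.sum_le_sum h2).trans ?_
      rw [← Finset.mul_sum, mul_assoc]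
      refine mul_le_mul_of_nonneg_left (mul_le_mul_of_nonneg_left ?_ hC) hμ.le
      exact hs1.sum_le_tsum _ (fun j _ => by positivity)
    refine (Finset.sum_le_sum h1).trans ?_
    rw [Finset.sum_const, nsmul_eq_mul]
    have h5 : 0 ≤ μ * (C * ∑' j : ℕ, ((j : ℝ) + 1) * ρ ^ j) :=
      mul_nonneg hμ.le (mul_nonneg hC (tsum_nonneg fun j => by positivity))
    refine (mul_le_mul_of_nonneg_right hSB h5).trans (le_of_eq ?_)
    ring
  -- second part
  have hD : ∑ k ∈ S, ∑ i ∈ range (n k), (μ * ρ ^ m k i) ^ (1 - p) * ep f F p (g k i) ≤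
      B * (∑' j : ℕ, ρ ^ j) * (μ ^ (1 - p) * κ * w) := by
    obtain ⟨A, hAd⟩ : ∃ A : Finset G, A = S.biUnion fun k => (range (n k)).image fun i => g k i := ⟨_, rfl⟩
    have hAm : ∀ k ∈ S, ∀ i ∈ range (n k), g k i ∈ A := by
      intro k hk i hi
      rw [hAd, Finset.mem_biUnion]
      exact ⟨k, hk, Finset.mem_image_of_mem _ hi⟩
    have hAw : ∑ g₀ ∈ A, ep f F p g₀ ≤ w := by
      refine hw A fun g₀ hg₀ => ?_
      rw [hAd, Finset.mem_biUnion] at hg₀
      obtain ⟨k, hk, h1⟩ := hg₀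
      obtain ⟨i, hi, h2⟩ := Finset.mem_image.1 h1
      exact ⟨k, hk, i, Finset.mem_range.1 hi, h2⟩
    have h1 : ∀ j, ∑ k ∈ S, ∑ i ∈ (range (n k)).filter (fun i => m k i = j), ep f F p (g k i) ≤
        κ * B * θ ^ j * w := by
      intro j
      have h2 : ∀ k ∈ S, ∑ i ∈ (range (n k)).filter (fun i => m k i = j), ep f F p (g k i) ≤
          ∑ g₀ ∈ A, if (∃ i < n k, g k i = g₀ ∧ m k i = j) then ep f F p g₀ else 0 := by
        intro k hk
        rw [← Finset.sum_filter]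
        have h3 : Set.InjOn (g k) ((range (n k)).filter (fun i => m k i = j)) := by
          intro i hi i' hi' h
          exact hinj k hk i (Finset.mem_range.1 (Finset.mem_filter.1 hi).1) i'
            (Finset.mem_range.1 (Finset.mem_filter.1 hi').1) h
        rw [← Finset.sum_image (f := fun x => ep f F p x) (fun x hx y hy h => h3 hx hy h)]
        refine Finset.sum_le_sum_of_subset_of_nonneg ?_ (fun x _ _ => ep_nonneg f F p x)
        intro x hx
        obtain ⟨i, hi, rfl⟩ := Finset.mem_image.1 hx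
        obtain ⟨hi1, hi2⟩ := Finset.mem_filter.1 hi
        exact Finset.mem_filter.2 ⟨hAm k hk i hi1, i, Finset.mem_range.1 hi1, rfl, hi2⟩
      refine (Finset.sum_le_sum h2).trans ?_
      rw [Finset.sum_comm]
      have h4 : ∀ g₀ ∈ A, (∑ k ∈ S, if (∃ i < n k, g k i = g₀ ∧ m k i = j) then ep f F p g₀ else 0) ≤
          κ * B * θ ^ j * ep f F p g₀ := by
        intro g₀ _
        rw [← Finset.sum_filter, Finset.sum_const, nsmul_eq_mul]
        exact mul_le_mul_of_nonneg_right (hcnt2 g₀ j) (ep_nonneg f F p g₀)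
      refine (Finset.sum_le_sum h4).trans ?_
      rw [← Finset.mul_sum]
      exact mul_le_mul_of_nonneg_left hAw (by positivity)
    have h5 : ∑ k ∈ S, ∑ i ∈ range (n k), (μ * ρ ^ m k i) ^ (1 - p) * ep f F p (g k i) =
        ∑ j ∈ range J, (μ * ρ ^ j) ^ (1 - p) *
          ∑ k ∈ S, ∑ i ∈ (range (n k)).filter (fun i => m k i = j), ep f F p (g k i) := by
      have h6 : ∀ k ∈ S, ∑ i ∈ range (n k), (μ * ρ ^ m k i) ^ (1 - p) * ep f F p (g k i) =
          ∑ j ∈ range J, (μ * ρ ^ j) ^ (1 - p) *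
            ∑ i ∈ (range (n k)).filter (fun i => m k i = j), ep f F p (g k i) := by
        intro k hk
        rw [← Finset.sum_fiberwise_of_maps_to (g := fun i => m k i) (t := range J) (hJ k hk)]
        refine Finset.sum_congr rfl fun j _ => ?_
        rw [Finset.mul_sum]
        refine Finset.sum_congr rfl fun i hi => ?_
        rw [(Finset.mem_filter.1 hi).2]
      rw [Finset.sum_congr rfl h6, Finset.sum_comm]
      refine Finset.sum_congr rfl fun j _ => ?_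
      rw [Finset.mul_sum]
    rw [h5]
    have h7 : ∀ j ∈ range J, (μ * ρ ^ j) ^ (1 - p) *
        ∑ k ∈ S, ∑ i ∈ (range (n k)).filter (fun i => m k i = j), ep f F p (g k i) ≤
        (B * (μ ^ (1 - p) * κ * w)) * ρ ^ j := by
      intro j _
      refine (mul_le_mul_of_nonneg_left (h1 j) (Real.rpow_nonneg (hl0 j).le _)).trans (le_of_eq ?_)
      calc (μ * ρ ^ j) ^ (1 - p) * (κ * B * θ ^ j * w)
          = ((μ * ρ ^ j) ^ (1 - p) * θ ^ j) * (κ * B * w) := by ring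
        _ = (B * (μ ^ (1 - p) * κ * w)) * ρ ^ j := by rw [hlp j]; ring
    refine (Finset.sum_le_sum h7).trans ?_
    rw [← Finset.mul_sum]
    have h8 : 0 ≤ B * (μ ^ (1 - p) * κ * w) :=
      mul_nonneg hB (mul_nonneg (mul_nonneg (Real.rpow_nonneg hμ.le _) hκ) hw0)
    refine (mul_le_mul_of_nonneg_left (hs2.sum_le_tsum (range J) (fun j _ => by positivity)) h8).trans
      (le_of_eq ?_)
    ring
  have hμp : 0 ≤ μ ^ (1 - p) * κ * w := mul_nonneg (mul_nonneg (Real.rpow_nonneg hμ.le _) hκ) hw0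
  have e1 := mul_le_mul_of_nonneg_right (mul_le_mul_of_nonneg_left
    (le_max_left (C * ∑' j : ℕ, ((j : ℝ) + 1) * ρ ^ j) (∑' j : ℕ, ρ ^ j)) hB) hμ.le
  have e2 := mul_le_mul_of_nonneg_right (mul_le_mul_of_nonneg_left
    (le_max_right (C * ∑' j : ℕ, ((j : ℝ) + 1) * ρ ^ j) (∑' j : ℕ, ρ ^ j)) hB) hμp
  rw [mul_add]
  exact add_le_add (hA.trans e1) (hD.trans e2)

end Pool.Agent.H25.Lp
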