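import Pool.Agent.H25.Bet.ChainB
import Pool.Agent.H25.Lp.Grow
import Pool.Agent.H25.Lp.Weight
import Pool.Agent.H25.Lp.Half

/-!
# Averages over large balls: the half sectors

Notation: `|g| = dist x (g•x)`, `near G x x n` is the ball of radius `n`, `N(n)` its cardinality, `q z` is a group
element with `dist z (q z•x) ≤ D`.

JOB LP-9 `avg_half`. For `k ∈ S` apply `half_sector` to `z k, v k`, append `rad x t (y k)`, `y k = σ k•x`
(distance `≤ 1` from `rad x t (v k)` by `rad_mono`, as `t ≤ t^2 ≤ T`). The points `w_i` of `half_sector` satisfy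
`dist (w_i) (y k) ≤ dist (w_i) (rad x T (v k)) + 1 + (dist x (y k) - T) ≤ n - c_i + 2`. In `G`: `q (w_i)`, steps in
`F = near G x x (2D+1)`, `| |q (w_i)| - t | ≤ D`; make it injective with `exists_inj_chain` (Bet/ChainB); by
injectivity the start vertices of the steps are of the form `q (w_i)` with `i` an index of `half_sector` (not the
appended point); label `m = ⌊c_i⌋₊` of such a vertex `q (w_i)`;
`#{label = j} ≤ #{i | c_i ≤ j+1} ≤ 60 (j+2) ≤ 120 (j+1)`; for given `g₀, j` the number of `k` with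
`dist (g₀•x) (σ k•x) ≤ n - j + 2 + D` is at most `C θ^j N(n)` by `count_bound` (`σ` is a bijection).
The vertices lie in `{g | t - D ≤ |g|}`, where the energy sums are `≤ w`. `weight_sum`
with `κ = C`, `B = N(n)`: `N(n) C' (μ + μ^(1-p) C w)`. (For the weight_sum data `g k i`, `n k`, `m k i` use
`choose` on the existence statement for `k`, with dummy values outside `S`.)
-/

open Set

namespace Pool.Agent.H25.Lp

open Pool.Agent.H29 Pool.Agent.H25.Bet

variable {G X : Type*} [Group G] [MetricSpace X] [IsCAT0 X] [ProperSpace X] [MulAction G X]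
  [IsIsometricSMul G X] [ProperlyDiscontinuousSMul G X]

omit [IsCAT0 X] [ProperSpace X] [IsIsometricSMul G X] [ProperlyDiscontinuousSMul G X] in
lemma avgH_step {x : X} {D : ℝ} {q : X → G} (hq : ∀ z, dist z (q z • x) ≤ D) {z w : X} {r : ℝ}
    (h : dist z w ≤ r) : dist (q z • x) (q w • x) ≤ 2 * D + r := by
  have h1 := dist_triangle4 (q z • x) z w (q w • x)
  have h2 := hq z
  have h3 := hq w
  rw [dist_comm] at h2
  linarith

omit [IsCAT0 X] [ProperSpace X] [IsIsometricSMul G X] [ProperlyDiscontinuousSMul G X] in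
lemma avgH_lev {x : X} {D : ℝ} {q : X → G} (hq : ∀ z, dist z (q z • x) ≤ D) {z : X} {t : ℝ}
    (h : dist x z = t) : t - D ≤ dist x (q z • x) := by
  have h2 := dist_triangle x (q z • x) z
  have h3 := hq z
  rw [dist_comm (q z • x) z] at h2
  linarith

/-- The labelled injective chain in the group. -/
lemma avgH_chain {x : X} {D : ℝ} {q : X → G} (hq : ∀ z, dist z (q z • x) ≤ D) {t T : ℝ}
    (ht : 1 ≤ t) (hT : t ^ 2 ≤ T) {z v y : X} {N : ℝ} (hz : T ≤ dist x z) (hv : T ≤ dist x v)
    (hy : T ≤ dist x y) (hyN : dist x y ≤ N)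
    (hnear : ∀ s ∈ Icc (0 : ℝ) 1, dist x z ≤ dist x (pt z v s))
    (hvy : dist (rad x T v) (rad x T y) ≤ 1) :
    ∃ (m : ℕ) (p : ℕ → G) (lab : ℕ → ℕ), p 0 = q (rad x t z) ∧ p m = q (rad x t y) ∧
      (∀ i < m, (p i)⁻¹ * p (i + 1) ∈ near G x x (2 * D + 1)) ∧
      (∀ i < m, ∀ j < m, p i = p j → i = j) ∧
      (∀ j : ℕ, (((Finset.range m).filter fun i => lab i = j).card : ℝ) ≤ 120 * (j + 1)) ∧
      (∀ i < m, t - D ≤ dist x (p i • x)) ∧
      (∀ i < m, dist (p i • x) y ≤ N - lab i + (D + 2)) := by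
  classical
  have ht0 : (0 : ℝ) ≤ t := by linarith
  have htT : t ≤ T := by nlinarith
  have hT0 : (0 : ℝ) ≤ T := by linarith
  obtain ⟨n', w, c, hw0, hwn, hw1, hwt, hc0, hwT, hcard⟩ := half_sector ht hT hz hnear
  have hlast : dist (rad x t v) (rad x t y) ≤ 1 := (rad_mono ht0 htT hv hy).trans hvy
  have hstep : ∀ a b : X, dist a b ≤ 1 → (q a)⁻¹ * q b ∈ near G x x (2 * D + 1) := by
    intro a b hab
    rw [mem_near]
    have h1 : dist x (((q a)⁻¹ * q b) • x) = dist (q a • x) (q b • x) := by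
      rw [← dist_smul (q a) x (((q a)⁻¹ * q b) • x), ← mul_smul, mul_inv_cancel_left]
    rw [h1]
    exact avgH_step hq hab
  obtain ⟨m, hm, p, hp0, hpm, hp1, hpV, hpi⟩ := exists_inj_chain
    (fun h h' : G => h⁻¹ * h' ∈ near G x x (2 * D + 1))
    (fun h : G => (∃ i ≤ n', h = q (w i)) ∨ h = q (rad x t y)) (n' + 1)
    (fun i => if i ≤ n' then q (w i) else q (rad x t y))
    (by
      intro i hi
      have hi' : i ≤ n' := by omega
      show (if i ≤ n' then q (w i) else q (rad x t y))⁻¹ *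
        (if i + 1 ≤ n' then q (w (i + 1)) else q (rad x t y)) ∈ near G x x (2 * D + 1)
      rw [if_pos hi']
      by_cases h : i + 1 ≤ n'
      · rw [if_pos h]
        exact hstep _ _ (hw1 i (by omega))
      · rw [if_neg h]
        have : i = n' := by omega
        rw [this, hwn]
        exact hstep _ _ hlast)
    (by
      intro i _
      show (∃ i' ≤ n', (if i ≤ n' then q (w i) else q (rad x t y)) = q (w i')) ∨
        (if i ≤ n' then q (w i) else q (rad x t y)) = q (rad x t y)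
      by_cases h : i ≤ n'
      · rw [if_pos h]
        exact Or.inl ⟨i, h, rfl⟩
      · rw [if_neg h]
        exact Or.inr rfl)
  have hpm' : p m = q (rad x t y) := by
    rw [hpm, if_neg (by omega)]
  have hp0' : p 0 = q (rad x t z) := by
    rw [hp0, if_pos (Nat.zero_le _), hw0]
  have hidx : ∀ i : ℕ, ∃ i' : ℕ, i < m → i' ≤ n' ∧ p i = q (w i') := by
    intro i
    by_cases hi : i < m
    · rcases hpV i hi.le with ⟨i', hi', h⟩ | h
      · exact ⟨i', fun _ => ⟨hi', h⟩⟩
      · exfalso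
        have := hpi i hi.le m le_rfl (h.trans hpm'.symm)
        omega
    · exact ⟨0, fun h => absurd h hi⟩
  choose idx hidx using hidx
  refine ⟨m, p, fun i => ⌊c (idx i)⌋₊, hp0', hpm', hp1,
    fun i hi j hj h => hpi i hi.le j hj.le h, ?_, ?_, ?_⟩
  · intro j
    have h1 : ((Finset.range m).filter fun i => ⌊c (idx i)⌋₊ = j).card ≤
        ((Finset.range (n' + 1)).filter fun i => c i ≤ ((j + 1 : ℕ) : ℝ)).card := by
      refine Finset.card_le_card_of_injOn idx ?_ ?_
      · intro i hi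
        have hi' := Finset.mem_filter.1 (Finset.mem_coe.1 hi)
        have him := Finset.mem_range.1 hi'.1
        refine Finset.mem_coe.2 (Finset.mem_filter.2 ⟨Finset.mem_range.2 ?_, ?_⟩)
        · have := (hidx i him).1
          omega
        · have h2 := Nat.lt_floor_add_one (c (idx i))
          rw [hi'.2] at h2
          push_cast
          exact h2.le
      · intro i hi i2 hi2 h
        have hi' := Finset.mem_filter.1 (Finset.mem_coe.1 hi)
        have him := Finset.mem_range.1 hi'.1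
        have hi2' := Finset.mem_filter.1 (Finset.mem_coe.1 hi2)
        have him2 := Finset.mem_range.1 hi2'.1
        refine hpi i him.le i2 him2.le ?_
        rw [(hidx i him).2, (hidx i2 him2).2, h]
    have h2 := hcard (j + 1)
    have h3 : (((Finset.range m).filter fun i => ⌊c (idx i)⌋₊ = j).card : ℝ) ≤
        (((Finset.range (n' + 1)).filter fun i => c i ≤ ((j + 1 : ℕ) : ℝ)).card : ℝ) := by
      exact_mod_cast h1
    have hj : (0 : ℝ) ≤ j := Nat.cast_nonneg j
    push_cast at h2 h3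
    linarith
  · intro i hi
    rw [(hidx i hi).2]
    exact avgH_lev hq (hwt (idx i) (hidx i hi).1)
  · intro i hi
    obtain ⟨hi1, hi2⟩ := hidx i hi
    rw [hi2]
    have h1 := hq (w (idx i))
    rw [dist_comm] at h1
    have h2 := hwT (idx i) hi1
    have h3 : dist (rad x T y) y = dist x y - T := dist_rad_right hT0 hy
    have h4 := dist_triangle4 (q (w (idx i)) • x) (w (idx i)) (rad x T v) (rad x T y)
    have h5 := dist_triangle (q (w (idx i)) • x) (rad x T y) y
    have h6 : ((⌊c (idx i)⌋₊ : ℕ) : ℝ) ≤ c (idx i) := Nat.floor_le (hc0 _ hi1)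
    linarith

open Classical in
/-- Along a half sector, on average over the ball. -/
theorem avg_half (hcoc : Cocompact G X) (hna : NonAmen G) {p : ℝ} (hp : 1 ≤ p) {x : X} {D : ℝ}
    {q : X → G} (hq : ∀ z, dist z (q z • x) ≤ D) :
    ∃ C : ℝ, 0 ≤ C ∧ ∃ n₀ : ℝ, ∀ (f : G → ℝ) (t T w μ : ℝ) (n : ℕ) (S : Finset G)
      (z v : G → X) (σ : G ≃ G), (∀ g, dist x (σ g • x) = dist x (g • x)) → 1 ≤ t → t ^ 2 ≤ T →
      0 < μ → 0 ≤ w → n₀ ≤ n → S ⊆ near G x x n →
      (∀ A : Finset G, (∀ g ∈ A, t - D ≤ dist x (g • x)) →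
        ∑ g ∈ A, ep f (near G x x (2 * D + 1)) p g ≤ w) →
      (∀ k ∈ S, T ≤ dist x (k • x) ∧ T ≤ dist x (z k) ∧ T ≤ dist x (v k) ∧
        (∀ s ∈ Icc (0 : ℝ) 1, dist x (z k) ≤ dist x (pt (z k) (v k) s)) ∧
        dist (rad x T (v k)) (rad x T (σ k • x)) ≤ 1) →
      ∑ k ∈ S, |f (q (rad x t (z k))) - f (q (rad x t (σ k • x)))| ≤
        C * (μ + μ ^ (1 - p) * w) * (near G x x n).card := by
  classical
  have hD : 0 ≤ D := dist_nonneg.trans (hq x)
  obtain ⟨θ, hθ0, hθ1, n₀, hcount⟩ := count_bound hcoc hna x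
  obtain ⟨C, hC, hcnt⟩ := hcount (D + 2)
  obtain ⟨C', hC', hws⟩ := weight_sum (G := G) hp hθ0 hθ1 (C := 120) (by norm_num)
  refine ⟨C' * (1 + C), by positivity, n₀, ?_⟩
  intro f t T w μ n S z v σ hσ ht hT hμ hw hn hS hE hk
  have hch : ∀ k : G, ∃ (m : ℕ) (p : ℕ → G) (lab : ℕ → ℕ), k ∈ S →
      (p 0 = q (rad x t (z k)) ∧ p m = q (rad x t (σ k • x)) ∧
      (∀ i < m, (p i)⁻¹ * p (i + 1) ∈ near G x x (2 * D + 1)) ∧
      (∀ i < m, ∀ j < m, p i = p j → i = j) ∧
      (∀ j : ℕ, (((Finset.range m).filter fun i => lab i = j).card : ℝ) ≤ 120 * (j + 1)) ∧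
      (∀ i < m, t - D ≤ dist x (p i • x)) ∧
      (∀ i < m, dist (p i • x) (σ k • x) ≤ n - lab i + (D + 2))) := by
    intro k
    by_cases hkS : k ∈ S
    · obtain ⟨h1, h2, h3, h4, h5⟩ := hk k hkS
      have hkn : dist x (k • x) ≤ n := mem_near.1 (hS hkS)
      obtain ⟨m, p, lab, h⟩ := avgH_chain (N := (n : ℝ)) hq ht hT h2 h3
        (by rw [hσ k]; exact h1) (by rw [hσ k]; exact hkn) h4 h5
      exact ⟨m, p, lab, fun _ => h⟩
    · exact ⟨0, fun _ => 1, fun _ => 0, fun h => absurd h hkS⟩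
  choose nn gg mm hch using hch
  have key := hws f (near G x x (2 * D + 1)) S ((near G x x n).card : ℝ) C w μ nn gg mm hμ hC
    (by exact_mod_cast Finset.card_le_card hS)
    (fun k hkS => (hch k hkS).2.2.1)
    (fun k hkS => (hch k hkS).2.2.2.1)
    (fun k hkS => (hch k hkS).2.2.2.2.1)
    (by
      intro g₀ j
      have h1 : (S.filter fun k => ∃ i < nn k, gg k i = g₀ ∧ mm k i = j).card ≤
          (near G (g₀ • x) x ((n : ℝ) - j + (D + 2))).card := by
        refine Finset.card_le_card_of_injOn (fun k => σ k) ?_ ?_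
        · intro k hk'
          obtain ⟨hkS, i, hi, hgi, hmi⟩ := Finset.mem_filter.1 (Finset.mem_coe.1 hk')
          refine Finset.mem_coe.2 (mem_near.2 ?_)
          have h2 := (hch k hkS).2.2.2.2.2.2 i hi
          rw [hgi, hmi] at h2
          exact h2
        · intro a _ b _ h
          exact σ.injective h
      have h2 := hcnt n hn j (g₀ • x)
      have h3 : ((S.filter fun k => ∃ i < nn k, gg k i = g₀ ∧ mm k i = j).card : ℝ) ≤
          ((near G (g₀ • x) x ((n : ℝ) - j + (D + 2))).card : ℝ) := by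
        exact_mod_cast h1
      calc _ ≤ _ := h3
        _ ≤ _ := h2
        _ = _ := by ring)
    (by
      intro A hA
      refine hE A ?_
      intro g hg
      obtain ⟨k, hkS, i, hi, rfl⟩ := hA g hg
      exact (hch k hkS).2.2.2.2.2.1 i hi)
  have hμp : 0 ≤ μ ^ (1 - p) := Real.rpow_nonneg hμ.le _
  have hN : (0 : ℝ) ≤ ((near G x x n).card : ℝ) := Nat.cast_nonneg _
  calc ∑ k ∈ S, |f (q (rad x t (z k))) - f (q (rad x t (σ k • x)))|
      = ∑ k ∈ S, |f (gg k 0) - f (gg k (nn k))| := by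
        refine Finset.sum_congr rfl fun k hkS => ?_
        rw [(hch k hkS).1, (hch k hkS).2.1]
    _ ≤ _ := key
    _ ≤ C' * (1 + C) * (μ + μ ^ (1 - p) * w) * (near G x x n).card := by
        have h1 : μ + μ ^ (1 - p) * C * w ≤ (1 + C) * (μ + μ ^ (1 - p) * w) := by
          have h2 : 0 ≤ μ ^ (1 - p) * w := mul_nonneg hμp hw
          have h3 : 0 ≤ C * μ := mul_nonneg hC hμ.le
          nlinarith
        have h4 : 0 ≤ ((near G x x n).card : ℝ) * C' := mul_nonneg hN hC'
        calc ((near G x x n).card : ℝ) * C' * (μ + μ ^ (1 - p) * C * w)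
            ≤ ((near G x x n).card : ℝ) * C' * ((1 + C) * (μ + μ ^ (1 - p) * w)) :=
              mul_le_mul_of_nonneg_left h1 h4
          _ = _ := by ring

end Pool.Agent.H25.Lp
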