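import Pool.Agent.H25.Bet.ChainB
import Pool.Agent.H25.Lp.Grow
import Pool.Agent.H25.Lp.Weight

/-!
# Averages over large balls: the radial part

Notation: `|g| = dist x (g•x)`, `near G x x n` is the ball of radius `n`, `N(n)` its cardinality, `q z` is a group
element with `dist z (q z•x) ≤ D`.

JOB LP-8 `avg_radial`. Let `F = near G x x (2D+1)`. For `k ∈ S`, `S` the set of `k ∈ near G x x n` with `t ≤ |k|`,
take the points `w_i = rad x (t+i) (k•x)` for `i ≤ I`, `t + I ≤ |k| < t+I+1`, and `w_{I+1} = k•x`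
(steps `≤ 1`); `dist (w_i) (k•x) = |k| - t - i` for `i ≤ I`. Take `q (w_i)`
for `i ≤ I`, and `k` itself at the end (so the chain in `G` goes from `q (rad x t (k•x))` to `k`), make it
injective with `exists_inj_chain` (Bet/ChainB; `V g := (∃ i ≤ I, g = q (w_i)) ∨ g = k`); by injectivity the start
vertices of the steps are of the form `q (w_i)` (or `≠ k`); the label of a vertex is some such index `i`.
Then for each `j` at most one start vertex has label `j` (it is `q (w_j)`), and for given `g₀, j`: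
`q (w_j) = g₀` implies
`dist (g₀•x) (k•x) ≤ n - (t + j) + D`, so by `count_bound` the number of such `k` is at most `C θ^(t+j) N(n)`
(`t : ℕ`). `weight_sum` with `κ = C θ^t`, `w = W`, `B = N(n)` gives the bound
`N(n) C' (μ + μ^(1-p) C θ^t W)`; choose `μ` and then `t₀`. (For the weight_sum data `g k i`, `n k`, `m k i` use
`choose` on the existence statement for `k`, with dummy values outside `S`.)
-/

open Set

namespace Pool.Agent.H25.Lp

open Pool.Agent.H29 Pool.Agent.H25.Bet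

variable {G X : Type*} [Group G] [MetricSpace X] [IsCAT0 X] [ProperSpace X] [MulAction G X]
  [IsIsometricSMul G X] [ProperlyDiscontinuousSMul G X]

omit [IsCAT0 X] [ProperSpace X] [IsIsometricSMul G X] [ProperlyDiscontinuousSMul G X] in
lemma AvgR_step {D : ℝ} {q : X → G} {x : X} (hq : ∀ z, dist z (q z • x) ≤ D) (y z : X) :
    dist (q y • x) (q z • x) ≤ 2 * D + dist y z := by
  have h1 := hq y
  have h2 := hq z
  have h3 := dist_triangle4 (q y • x) y z (q z • x)
  rw [dist_comm (q y • x) y] at h3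
  linarith

omit [IsCAT0 X] in
lemma AvgR_mem {x : X} {r : ℝ} {g h : G} (hd : dist (g • x) (h • x) ≤ r) :
    g⁻¹ * h ∈ near G x x r := by
  rw [mem_near, mul_smul]
  rwa [← dist_smul g x, smul_inv_smul]

lemma AvgR_chain {x : X} {D : ℝ} {q : X → G} (hq : ∀ z, dist z (q z • x) ≤ D) (t : ℕ) (k : G)
    (hk : (t : ℝ) ≤ dist x (k • x)) :
    ∃ (m : ℕ) (p : ℕ → G) (l : ℕ → ℕ), p 0 = q (rad x t (k • x)) ∧ p m = k ∧
      (∀ i < m, (p i)⁻¹ * p (i + 1) ∈ near G x x (2 * D + 1)) ∧
      (∀ i < m, ∀ j < m, p i = p j → i = j) ∧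
      (∀ i < m, p i = q (rad x ((t : ℝ) + l i) (k • x)) ∧ (t : ℝ) + l i ≤ dist x (k • x)) := by
  classical
  have hD : 0 ≤ D := le_trans dist_nonneg (hq x)
  set L := dist x (k • x) with hL
  set I := ⌊L - t⌋₊ with hI
  have hLt : 0 ≤ L - t := by linarith
  have hI1 : (I : ℝ) ≤ L - t := Nat.floor_le hLt
  have hI2 : L - t < I + 1 := Nat.lt_floor_add_one _
  have hle : ∀ i : ℕ, i ≤ I → (t : ℝ) + i ≤ L := by
    intro i hi
    have : (i : ℝ) ≤ I := by exact_mod_cast hi
    linarith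
  obtain ⟨m, hm, p, hp0, hpm, hR, hV, hinj⟩ := exists_inj_chain
    (fun g h : G => g⁻¹ * h ∈ near G x x (2 * D + 1))
    (fun g : G => (∃ i ≤ I, g = q (rad x ((t : ℝ) + (i : ℕ)) (k • x))) ∨ g = k) (I + 1)
    (fun i => if i ≤ I then q (rad x ((t : ℝ) + (i : ℕ)) (k • x)) else k) (by
      intro i hi
      have hi' : i ≤ I := by omega
      show (if i ≤ I then q (rad x ((t : ℝ) + (i : ℕ)) (k • x)) else k)⁻¹ *
        (if i + 1 ≤ I then q (rad x ((t : ℝ) + ((i + 1 : ℕ) : ℝ)) (k • x)) else k) ∈ _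
      rw [if_pos hi']
      apply AvgR_mem
      have ht0 : (0 : ℝ) ≤ (t : ℝ) + i := by positivity
      by_cases h2 : i + 1 ≤ I
      · rw [if_pos h2]
        refine (AvgR_step hq _ _).trans ?_
        have h3 : dist (rad x ((t : ℝ) + i) (k • x)) (rad x ((t : ℝ) + ((i + 1 : ℕ) : ℝ)) (k • x))
            = 1 := by
          have h4 := hle _ h2
          have h5 : (t : ℝ) + i ≤ (t : ℝ) + ((i + 1 : ℕ) : ℝ) := by push_cast; linarith
          have h6 := dist_rad (x := x) (u := k • x) (le_trans ht0 h5) h4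
          rw [← rad_rad ht0 h5 h4, dist_rad_right ht0 (by rw [h6]; exact h5), h6]
          push_cast; ring
        rw [h3]
      · rw [if_neg h2]
        have h3 := dist_rad_right ht0 (hle i hi')
        have h4 := hq (rad x ((t : ℝ) + i) (k • x))
        have h5 := dist_triangle (q (rad x ((t : ℝ) + i) (k • x)) • x) (rad x ((t : ℝ) + i) (k • x))
          (k • x)
        rw [dist_comm _ (rad x ((t : ℝ) + i) (k • x)), h3] at h5
        have h6 : i = I := by omega
        have h7 : (i : ℝ) = I := by rw [h6]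
        linarith) (by
      intro i hi
      show (∃ j ≤ I, (if i ≤ I then q (rad x ((t : ℝ) + (i : ℕ)) (k • x)) else k) =
        q (rad x ((t : ℝ) + (j : ℕ)) (k • x))) ∨
        (if i ≤ I then q (rad x ((t : ℝ) + (i : ℕ)) (k • x)) else k) = k
      by_cases h2 : i ≤ I
      · rw [if_pos h2]
        exact Or.inl ⟨i, h2, rfl⟩
      · rw [if_neg h2]
        exact Or.inr rfl)
  have hpm' : p m = k := by
    rw [hpm]
    exact if_neg (by omega)
  have hlab : ∀ i, ∃ l : ℕ, i < m → p i = q (rad x ((t : ℝ) + l) (k • x)) ∧ (t : ℝ) + l ≤ L := by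
    intro i
    by_cases hi : i < m
    · rcases hV i hi.le with ⟨l, hl, he⟩ | he
      · exact ⟨l, fun _ => ⟨he, hle l hl⟩⟩
      · exact absurd (hinj i hi.le m le_rfl (he.trans hpm'.symm)) (by omega)
    · exact ⟨0, fun h => absurd h hi⟩
  choose l hl using hlab
  refine ⟨m, p, l, ?_, hpm', hR, fun i hi j hj => hinj i hi.le j hj.le, hl⟩
  rw [hp0]
  show (if 0 ≤ I then q (rad x ((t : ℝ) + ((0 : ℕ) : ℝ)) (k • x)) else k) = _
  rw [if_pos (Nat.zero_le _), Nat.cast_zero, add_zero]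

open Classical in
/-- From `k` to the point of `[x, k•x]` at distance `t` from `x`, on average over the ball. -/
theorem avg_radial (hcoc : Cocompact G X) (hna : NonAmen G) {p : ℝ} (hp : 1 ≤ p) {x : X} {D : ℝ}
    {q : X → G} (hq : ∀ z, dist z (q z • x) ≤ D) (W : ℝ) {ε : ℝ} (hε : 0 < ε) :
    ∃ t₀ : ℕ, ∀ t : ℕ, t₀ ≤ t → ∃ n₀ : ℕ, ∀ n : ℕ, n₀ ≤ n → ∀ f : G → ℝ,
      (∀ A : Finset G, ∑ g ∈ A, ep f (near G x x (2 * D + 1)) p g ≤ W) →
      ∑ k ∈ (near G x x n).filter (fun k => (t : ℝ) ≤ dist x (k • x)),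
        |f (q (rad x t (k • x))) - f k| ≤ ε * (near G x x n).card := by
  have hD : 0 ≤ D := le_trans dist_nonneg (hq x)
  obtain ⟨θ, hθ0, hθ1, n₀', hcb⟩ := count_bound hcoc hna x
  obtain ⟨C, hC, hcount⟩ := hcb D
  obtain ⟨C', hC', hws⟩ := weight_sum (G := G) hp hθ0 hθ1 (zero_le_one : (0 : ℝ) ≤ 1)
  set μ : ℝ := ε / (2 * (C' + 1)) with hμdef
  have hμ : 0 < μ := by positivity
  have hμ1 : C' * μ ≤ ε / 2 := by
    rw [hμdef]
    have h1 : C' * (ε / (2 * (C' + 1))) = (ε / 2) * (C' / (C' + 1)) := by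
      field_simp
    rw [h1]
    have h2 : C' / (C' + 1) ≤ 1 := by
      rw [div_le_one (by linarith)]
      linarith
    have h3 : 0 ≤ ε / 2 := by positivity
    nlinarith
  have hlim : Filter.Tendsto (fun t : ℕ => C' * (μ ^ (1 - p) * (C * θ ^ t) * |W|)) Filter.atTop
      (nhds 0) := by
    have h1 := tendsto_pow_atTop_nhds_zero_of_lt_one hθ0.le hθ1
    have h2 : Filter.Tendsto (fun t : ℕ => (C' * μ ^ (1 - p) * C * |W|) * θ ^ t) Filter.atTop
      (nhds ((C' * μ ^ (1 - p) * C * |W|) * 0)) := h1.const_mul _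
    rw [mul_zero] at h2
    refine h2.congr ?_
    intro t
    ring
  have hev := (hlim.eventually_lt_const (show (0 : ℝ) < ε / 2 by positivity))
  rw [Filter.eventually_atTop] at hev
  obtain ⟨t₀, ht₀⟩ := hev
  refine ⟨t₀, fun t ht => ⟨⌈n₀'⌉₊, fun n hn f hf => ?_⟩⟩
  have hn' : n₀' ≤ (n : ℝ) := by
    calc n₀' ≤ (⌈n₀'⌉₊ : ℝ) := Nat.le_ceil _
      _ ≤ n := by exact_mod_cast hn
  have hch : ∀ k : G, ∃ (m : ℕ) (P : ℕ → G) (l : ℕ → ℕ), (t : ℝ) ≤ dist x (k • x) →
      P 0 = q (rad x t (k • x)) ∧ P m = k ∧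
      (∀ i < m, (P i)⁻¹ * P (i + 1) ∈ near G x x (2 * D + 1)) ∧
      (∀ i < m, ∀ j < m, P i = P j → i = j) ∧
      (∀ i < m, P i = q (rad x ((t : ℝ) + l i) (k • x)) ∧ (t : ℝ) + l i ≤ dist x (k • x)) := by
    intro k
    by_cases hk : (t : ℝ) ≤ dist x (k • x)
    · obtain ⟨m, P, l, h⟩ := AvgR_chain hq t k hk
      exact ⟨m, P, l, fun _ => h⟩
    · exact ⟨0, fun _ => 1, fun _ => 0, fun h => absurd h hk⟩
  choose m P l hP using hch
  set S := (near G x x n).filter (fun k => (t : ℝ) ≤ dist x (k • x)) with hS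
  have hSmem : ∀ k ∈ S, dist x (k • x) ≤ n ∧ (t : ℝ) ≤ dist x (k • x) := by
    intro k hk
    rw [hS, Finset.mem_filter, mem_near] at hk
    exact hk
  have hWn : 0 ≤ W := by
    have := hf ∅
    simpa using this
  have hmain := hws f (near G x x (2 * D + 1)) S ((near G x x n).card : ℝ) (C * θ ^ t) W μ m P l hμ
    (by positivity) (by exact_mod_cast Finset.card_filter_le _ _)
    (fun k hk => (hP k (hSmem k hk).2).2.2.1)
    (fun k hk => (hP k (hSmem k hk).2).2.2.2.1)
    (by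
      intro k hk j
      obtain ⟨-, -, -, hinj, hlab⟩ := hP k (hSmem k hk).2
      have h1 : ((Finset.range (m k)).filter fun i => l k i = j).card ≤ 1 := by
        rw [Finset.card_le_one]
        intro a ha b hb
        rw [Finset.mem_filter, Finset.mem_range] at ha hb
        apply hinj a ha.1 b hb.1
        rw [(hlab a ha.1).1, (hlab b hb.1).1, ha.2, hb.2]
      have h2 : (((Finset.range (m k)).filter fun i => l k i = j).card : ℝ) ≤ 1 := by
        exact_mod_cast h1
      have h3 : (0 : ℝ) ≤ j := Nat.cast_nonneg j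
      linarith)
    (by
      intro g₀ j
      have h1 : (S.filter fun k => ∃ i < m k, P k i = g₀ ∧ l k i = j) ⊆
          near G (g₀ • x) x ((n : ℝ) - ((t + j : ℕ) : ℝ) + D) := by
        intro k hk
        rw [Finset.mem_filter] at hk
        obtain ⟨hk, i, hi, he, hlj⟩ := hk
        obtain ⟨-, -, -, -, hlab⟩ := hP k (hSmem k hk).2
        obtain ⟨hl1, hl2⟩ := hlab i hi
        rw [mem_near, ← he, hl1]
        have h0 : (0 : ℝ) ≤ (t : ℝ) + l k i := by positivity
        have h3 := dist_rad_right h0 hl2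
        have h4 := hq (rad x ((t : ℝ) + l k i) (k • x))
        have h5 := dist_triangle (q (rad x ((t : ℝ) + l k i) (k • x)) • x)
          (rad x ((t : ℝ) + l k i) (k • x)) (k • x)
        rw [dist_comm _ (rad x ((t : ℝ) + l k i) (k • x)), h3] at h5
        have h6 := (hSmem k hk).1
        have h7 : (l k i : ℝ) = j := by rw [hlj]
        push_cast
        linarith
      have h2 : ((S.filter fun k => ∃ i < m k, P k i = g₀ ∧ l k i = j).card : ℝ) ≤
          ((near G (g₀ • x) x ((n : ℝ) - ((t + j : ℕ) : ℝ) + D)).card : ℝ) := by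
        exact_mod_cast Finset.card_le_card h1
      refine h2.trans ((hcount n hn' (t + j) (g₀ • x)).trans (le_of_eq ?_))
      rw [pow_add]
      ring)
    (fun A _ => hf A)
  have heq : ∑ k ∈ S, |f (q (rad x t (k • x))) - f k| = ∑ k ∈ S, |f (P k 0) - f (P k (m k))| := by
    refine Finset.sum_congr rfl fun k hk => ?_
    obtain ⟨h0, h1, -⟩ := hP k (hSmem k hk).2
    rw [h0, h1]
  rw [heq]
  refine hmain.trans ?_
  have hfin := ht₀ t ht
  rw [abs_of_nonneg hWn] at hfin
  have h1 : C' * (μ + μ ^ (1 - p) * (C * θ ^ t) * W) ≤ ε := by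
    have : C' * (μ + μ ^ (1 - p) * (C * θ ^ t) * W) =
      C' * μ + C' * (μ ^ (1 - p) * (C * θ ^ t) * W) := by ring
    rw [this]
    linarith
  have h2 : (0 : ℝ) ≤ ((near G x x n).card : ℝ) := Nat.cast_nonneg _
  calc ((near G x x n).card : ℝ) * C' * (μ + μ ^ (1 - p) * (C * θ ^ t) * W)
      = (C' * (μ + μ ^ (1 - p) * (C * θ ^ t) * W)) * ((near G x x n).card : ℝ) := by ring
    _ ≤ ε * ((near G x x n).card : ℝ) := mul_le_mul_of_nonneg_right h1 h2

end Pool.Agent.H25.Lp
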