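import Pool.Agent.H25.Bet.Curve

/-!
# Radial chains, with the points of the segment

JOB LP-2. Copy the proof of `radial_chain` (Bet/Curve.lean): `subsample` gives points among the
`rad x t (pt u v (j/m))`.
-/

open Set

namespace Pool.Agent.H25.Lp

open Pool.Agent.H29 Pool.Agent.H25.Bet Real

variable {X : Type*} [MetricSpace X] [IsCAT0 X]

theorem radial_chain' {x u v : X} {t : ℝ} (ht : 0 < t)
    (h : ∀ a ∈ Icc (0 : ℝ) 1, t ≤ dist x (pt u v a)) :
    ∃ n : ℕ, (n : ℝ) ≤ 2 * (π * t) + 1 ∧ ∃ w : ℕ → X, w 0 = rad x t u ∧ w n = rad x t v ∧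
      (∀ i < n, dist (w i) (w (i + 1)) ≤ 1) ∧
      ∀ i ≤ n, ∃ a ∈ Icc (0 : ℝ) 1, w i = rad x t (pt u v a) := by
  rcases eq_or_ne u v with rfl | huv
  · refine ⟨0, by push_cast; positivity, fun _ => rad x t u, rfl, rfl, ?_, ?_⟩
    · intro i hi; omega
    · intro i _; exact ⟨0, zero_mem_I, by rw [pt_zero]⟩
  · obtain ⟨m, hm⟩ := exists_nat_gt (2 * dist u v)
    have hD : 0 < dist u v := dist_pos.mpr huv
    have hm0 : (0 : ℝ) < m := by linarith
    have hm1 : 0 < m := by exact_mod_cast hm0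
    have hI : ∀ i ≤ m, ((i : ℝ) / m) ∈ Icc (0 : ℝ) 1 := by
      intro i hi
      refine ⟨by positivity, ?_⟩
      rw [div_le_one hm0]
      exact_mod_cast hi
    have h1 := radial_length ht h huv hm1
    have h2 : ∀ i < m, dist (rad x t (pt u v ((i : ℕ) / m)))
        (rad x t (pt u v ((i + 1 : ℕ) / m))) ≤ 1 / 2 := by
      intro i hi
      refine (rad_lip ht (h _ (hI i hi.le)) (h _ (hI (i + 1) hi))).trans ?_
      rw [dist_pt_pt u v (hI i hi.le) (hI (i + 1) hi)]
      have : |(i : ℝ) / m - ((i + 1 : ℕ) : ℝ) / m| = 1 / m := by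
        rw [← sub_div]
        push_cast
        rw [show (i : ℝ) - (i + 1) = -1 by ring, abs_div, abs_neg, abs_one, abs_of_pos hm0]
      rw [this, one_div, inv_mul_le_iff₀ hm0]
      linarith
    obtain ⟨n, hn, w, w0, wn, hw1, hw2⟩ := subsample
      (z := fun i : ℕ => rad x t (pt u v ((i : ℝ) / m))) h2 h1
    refine ⟨n, hn, w, ?_, ?_, hw1, ?_⟩
    · rw [w0]; simp
    · rw [wn]
      have : (m : ℝ) / m = 1 := div_self hm0.ne'
      simp only [this, pt_one]
    · intro i hi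
      obtain ⟨j, hj, e⟩ := hw2 i hi
      exact ⟨_, hI j hj, e⟩

/-- radial projection contracts -/
lemma rad_scale {x u v : X} {r t : ℝ} (ht : 0 < t) (hr : t ≤ r) (hu : r ≤ dist x u)
    (hv : r ≤ dist x v) : dist (rad x t u) (rad x t v) ≤ t / r * dist u v := by
  have hr0 : 0 < r := lt_of_lt_of_le ht hr
  have h1 := rad_lip hr0 hu hv
  have hu' := dist_rad hr0.le hu
  have hv' := dist_rad hr0.le hv
  rw [← rad_rad ht.le hr hu, ← rad_rad ht.le hr hv]
  generalize rad x r u = u' at hu' h1 ⊢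
  generalize rad x r v = v' at hv' h1 ⊢
  rw [rad, rad, hu', hv']
  have hI : t / r ∈ Icc (0 : ℝ) 1 := ⟨div_nonneg ht.le hr0.le, div_le_one_of_le₀ hr hr0.le⟩
  exact (dist_pt_pt_left_le x u' v' hI).trans (mul_le_mul_of_nonneg_left h1 hI.1)

end Pool.Agent.H25.Lp
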