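import Pool.Agent.H25.Bet.Gate
import Pool.Agent.H25.Lp.Half

/-!
# Without rank-one isometries there are sectors for every long element

JOB LP-7. `k` is not rank one, so by `rankOne_of_gate` the gate property fails for `k`: there are
`u, v` with `T ≤ dist x u`, `T ≤ dist x v`, near `k⁻¹•x`, `k•x` at radius `T`, and `T ≤ dist x (pt u v s)`
for all `s ∈ [0,1]`. Let `z = pt u v s₀` minimise the continuous function `s ↦ dist x (pt u v s)` on
the compact `[0,1]` (continuity: `dist_pt_pt`). The points `pt z v s`, `pt z u s` lie on `[u,v]`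
(`pt_pt_pt`, with `u = pt u v 0`, `v = pt u v 1`).
-/

open Set

namespace Pool.Agent.H25.Lp

open Pool.Agent.H29 Pool.Agent.H25.Bet

variable {G X : Type*} [Group G] [MetricSpace X] [IsCAT0 X] [ProperSpace X] [MulAction G X]
  [IsIsometricSMul G X] [ProperlyDiscontinuousSMul G X]

theorem exists_sector (hcoc : Cocompact G X) (hno : ¬ ∃ g : G, IsRankOne (X := X) g) {T : ℝ}
    (hT : 1 ≤ T) {x : X} {k : G} (hk : 4 * T ^ 2 + 2 * T + 1 ≤ dist x (k • x)) :
    ∃ u v z : X, T ≤ dist x z ∧ T ≤ dist x u ∧ T ≤ dist x v ∧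
      (∀ s ∈ Icc (0 : ℝ) 1, dist x z ≤ dist x (pt z v s)) ∧
      (∀ s ∈ Icc (0 : ℝ) 1, dist x z ≤ dist x (pt z u s)) ∧
      dist (rad x T u) (rad x T (k⁻¹ • x)) ≤ 1 ∧ dist (rad x T v) (rad x T (k • x)) ≤ 1 := by
  have hng : ¬ Gate T x (k⁻¹ • x) (k • x) := fun h => hno ⟨k, rankOne_of_gate hcoc hT hk h⟩
  unfold Gate at hng
  push Not at hng
  obtain ⟨u, v, hu, hv, hua, hvb, hfar⟩ := hng
  have hlip : LipschitzOnWith (nndist u v) (fun s => dist x (pt u v s))
      (Icc (0 : ℝ) 1) := by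
    apply LipschitzOnWith.of_dist_le_mul
    intro s hs t ht
    refine (dist_dist_dist_le_right _ _ _).trans ?_
    rw [dist_pt_pt u v hs ht, Real.dist_eq, coe_nndist, mul_comm]
  obtain ⟨s₀, hs₀, hmin⟩ := isCompact_Icc.exists_isMinOn ⟨0, zero_mem_I⟩ hlip.continuousOn
  have hmin' : ∀ s ∈ Icc (0 : ℝ) 1, dist x (pt u v s₀) ≤ dist x (pt u v s) := fun s hs => hmin hs
  refine ⟨u, v, pt u v s₀, hfar s₀ hs₀, hu, hv, ?_, ?_, hua, hvb⟩
  · intro s hs
    have e := pt_pt_pt u v hs₀ one_mem_I hs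
    rw [pt_one] at e
    rw [e]
    apply hmin'
    have h1 := hs₀.1; have h2 := hs₀.2; have h3 := hs.1; have h4 := hs.2
    constructor <;> nlinarith
  · intro s hs
    have e := pt_pt_pt u v hs₀ zero_mem_I hs
    rw [pt_zero] at e
    rw [e]
    apply hmin'
    have h1 := hs₀.1; have h2 := hs₀.2; have h3 := hs.1; have h4 := hs.2
    constructor <;> nlinarith

end Pool.Agent.H25.Lp
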