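import Pool.Agent.H25.Lp.AvgR
import Pool.Agent.H25.Lp.AvgH
import Pool.Agent.H25.Lp.Sector

/-!
# Invariance of the averages under inversion

Notation: `|g| = dist x (g•x)`, `near G x x n` is the ball of radius `n`, `N(n)` its cardinality; `f` has finite
`p`-energy: `hf`.

JOB LP-10 `avg_inv`. Choose `D, q` (`hcoc.orbit`, `choose`; `D ≥ 0`), `F = near G x x (2D+1)`. The total energy
`W` is finite (`ep f F p` is a finite sum of summable functions, so summable), and for every `w > 0` there is `R`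
such that all finite sums of `ep f F p` over sets in
`{g | R ≤ |g|}` are `≤ w` (the complement of this set is finite: `finite_near`;
`Summable.vanishing` or similar). Given `ε`, put `ε' = ε/6`. Choose `t₀` from `avg_radial` for `ε'`, choose `μ`
with `C μ ≤ ε'/2` (`C` from `avg_half`), then `w` with `C μ^(1-p) w ≤ ε'/2`, then `t ≥ max t₀ 1` (natural) with
`R ≤ t - D`.
Put `T = t^2`, `L = 4T^2+2T+1`. For `k ∈ near G x x n` with `|k| ≥ L` take `u, v, z` from
`exists_sector`. Then `f k ~ f (q (rad x t (k•x)))` (`avg_radial`) `~ f (q (rad x t (z k)))` (`avg_half` with `v`,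
`σ = id`) `~ f (q (rad x t (k⁻¹•x)))` (`avg_half` with `u`, `σ = inv`) `~ f (k⁻¹)` (`avg_radial`, reindexed by the
inverse, the ball is invariant under inversion: `dist_inv_smul`),
total `4 ε' N(n)`. The `k` with `|k| < L` contribute at most a constant (they lie in the finite set
`near G x x L`), `≤ ε' N(n)` for large `n` (`nb_tendsto`).

Status: complete (helper26).
-/

open Set

namespace Pool.Agent.H25.Lp

open Pool.Agent.H29 Pool.Agent.H25.Bet

variable {G X : Type*} [Group G] [MetricSpace X] [IsCAT0 X] [ProperSpace X] [MulAction G X]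
  [IsIsometricSMul G X] [ProperlyDiscontinuousSMul G X]

lemma ep_nonneg' {G : Type*} [Group G] (f : G → ℝ) (F : Finset G) (p : ℝ) (g : G) : 0 ≤ ep f F p g :=
  Finset.sum_nonneg fun _ _ => Real.rpow_nonneg (abs_nonneg _) _


omit [IsCAT0 X] [ProperSpace X] [IsIsometricSMul G X] [ProperlyDiscontinuousSMul G X] in
lemma inv_tail {p : ℝ} {f : G → ℝ} (hf : ∀ h : G, Summable fun g => |f (g * h) - f g| ^ p) (x : X)
    (F : Finset G) {w : ℝ} (hw : 0 < w) :
    ∃ R : ℝ, ∀ A : Finset G, (∀ g ∈ A, R ≤ dist x (g • x)) → ∑ g ∈ A, ep f F p g ≤ w := by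
  classical
  have hE : Summable (fun g => ep f F p g) := by
    unfold ep
    exact summable_sum fun h _ => hf h
  obtain ⟨s, hs⟩ := summable_iff_vanishing_norm.1 hE w hw
  obtain ⟨R, hR⟩ := (s.image fun g => dist x (g • x)).bddAbove
  refine ⟨R + 1, fun A hA => ?_⟩
  have hdis : Disjoint A s := by
    rw [Finset.disjoint_left]
    intro g hg hgs
    have h1 := hA g hg
    have h2 : dist x (g • x) ≤ R := hR (Finset.mem_coe.2 (Finset.mem_image_of_mem _ hgs))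
    linarith
  have h3 := hs A hdis
  rw [Real.norm_eq_abs, abs_of_nonneg (Finset.sum_nonneg fun g _ => ep_nonneg' f F p g)] at h3
  exact h3.le

theorem avg_inv (hcoc : Cocompact G X) (hna : NonAmen G)
    (hno : ¬ ∃ g : G, IsRankOne (X := X) g) {p : ℝ} (hp : 1 ≤ p) {f : G → ℝ}
    (hf : ∀ h : G, Summable fun g => |f (g * h) - f g| ^ p) (x : X) {ε : ℝ} (hε : 0 < ε) :
    ∃ n₀ : ℕ, ∀ n : ℕ, n₀ ≤ n →
      ∑ k ∈ near G x x n, |f k - f k⁻¹| ≤ ε * (near G x x n).card := by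
  classical
  obtain ⟨D, hD⟩ := hcoc.orbit x
  choose q hq using hD
  set F := near G x x (2 * D + 1) with hF
  have hE : Summable (fun g => ep f F p g) := by
    unfold ep
    exact summable_sum fun h _ => hf h
  obtain ⟨W, hW⟩ : ∃ W : ℝ, ∀ A : Finset G, ∑ g ∈ A, ep f F p g ≤ W :=
    ⟨∑' g, ep f F p g, fun A => hE.sum_le_tsum A fun g _ => ep_nonneg' f F p g⟩
  obtain ⟨ε', hε'⟩ : ∃ e : ℝ, e = ε / 6 := ⟨_, rfl⟩
  have hε'0 : 0 < ε' := by rw [hε']; positivity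
  obtain ⟨t₀, ht₀⟩ := avg_radial hcoc hna hp (x := x) hq W hε'0
  obtain ⟨C, hC, n₀', hhalf⟩ := avg_half hcoc hna hp (x := x) hq
  obtain ⟨μ, hμ⟩ : ∃ e : ℝ, e = ε' / (2 * (C + 1)) := ⟨_, rfl⟩
  have hC1 : 0 < C + 1 := by linarith
  have hμ0 : 0 < μ := by rw [hμ]; positivity
  have hμp : 0 < μ ^ (1 - p) := Real.rpow_pos_of_pos hμ0 _
  obtain ⟨w, hw⟩ : ∃ e : ℝ, e = ε' / (2 * (C + 1) * μ ^ (1 - p)) := ⟨_, rfl⟩
  have hw0 : 0 < w := by rw [hw]; positivity
  have hbound : C * (μ + μ ^ (1 - p) * w) ≤ ε' := by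
    have h1 : μ ^ (1 - p) * w = ε' / (2 * (C + 1)) := by
      rw [hw]; field_simp
    rw [h1, hμ]
    have h2 : C * (ε' / (2 * (C + 1)) + ε' / (2 * (C + 1))) = C / (C + 1) * ε' := by
      field_simp; ring
    rw [h2]
    have h3 : C / (C + 1) ≤ 1 := by rw [div_le_one hC1]; linarith
    nlinarith
  obtain ⟨R, hR⟩ := inv_tail (X := X) hf x F hw0
  obtain ⟨t, ht1, ht2, ht3⟩ : ∃ t : ℕ, t₀ ≤ t ∧ (1 : ℝ) ≤ t ∧ R + D ≤ t := by
    obtain ⟨m, hm⟩ := exists_nat_ge (max 1 (R + D))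
    refine ⟨max t₀ m, le_max_left _ _, ?_, ?_⟩
    · have : (m : ℝ) ≤ ((max t₀ m : ℕ) : ℝ) := by exact_mod_cast le_max_right _ _
      exact ((le_max_left _ _).trans hm).trans this
    · have : (m : ℝ) ≤ ((max t₀ m : ℕ) : ℝ) := by exact_mod_cast le_max_right _ _
      exact ((le_max_right _ _).trans hm).trans this
  obtain ⟨n₁, hn₁⟩ := ht₀ t ht1
  obtain ⟨T, hT⟩ : ∃ e : ℝ, e = (t : ℝ) ^ 2 := ⟨_, rfl⟩
  have hT1 : 1 ≤ T := by rw [hT]; nlinarith
  have htT : (t : ℝ) ≤ T := by rw [hT]; nlinarith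
  obtain ⟨L, hL⟩ : ∃ e : ℝ, e = 4 * T ^ 2 + 2 * T + 1 := ⟨_, rfl⟩
  have hTL : T ≤ L := by rw [hL]; nlinarith [sq_nonneg T]
  have hsec : ∀ k : G, ∃ u v z : X, L ≤ dist x (k • x) → T ≤ dist x z ∧ T ≤ dist x u ∧ T ≤ dist x v ∧
      (∀ s ∈ Icc (0 : ℝ) 1, dist x z ≤ dist x (pt z v s)) ∧
      (∀ s ∈ Icc (0 : ℝ) 1, dist x z ≤ dist x (pt z u s)) ∧
      dist (rad x T u) (rad x T (k⁻¹ • x)) ≤ 1 ∧ dist (rad x T v) (rad x T (k • x)) ≤ 1 := by
    intro k
    by_cases hk : L ≤ dist x (k • x)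
    · obtain ⟨u, v, z, h⟩ := exists_sector hcoc hno hT1 (x := x) (k := k) (by rw [← hL]; exact hk)
      exact ⟨u, v, z, fun _ => h⟩
    · exact ⟨x, x, x, fun h => absurd h hk⟩
  choose u v z hsec using hsec
  obtain ⟨KL, hKL⟩ : ∃ e : ℝ, e = ∑ k ∈ near G x x L, |f k - f k⁻¹| := ⟨_, rfl⟩
  obtain ⟨n₂, hn₂⟩ := Filter.eventually_atTop.1 ((nb_tendsto hna x).eventually_ge_atTop (KL / ε'))
  obtain ⟨n₃, hn₃⟩ := exists_nat_ge n₀'
  refine ⟨max (max n₁ n₂) n₃, fun n hn => ?_⟩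
  have hnn₁ : n₁ ≤ n := ((le_max_left _ _).trans (le_max_left _ _)).trans hn
  have hnn₂ : n₂ ≤ n := ((le_max_right _ _).trans (le_max_left _ _)).trans hn
  have hnn₃ : n₀' ≤ n := hn₃.trans (by exact_mod_cast (le_max_right _ _).trans hn)
  obtain ⟨N, hN⟩ : ∃ e : ℝ, e = ((near G x x n).card : ℝ) := ⟨_, rfl⟩
  have hN0 : 0 ≤ N := by rw [hN]; positivity
  rw [← hN]
  set S := (near G x x n).filter (fun k => L ≤ dist x (k • x)) with hS
  have hSsub : S ⊆ near G x x n := Finset.filter_subset _ _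
  have hSL : ∀ k ∈ S, L ≤ dist x (k • x) := fun k hk => (Finset.mem_filter.1 hk).2
  have hinvd : ∀ k : G, dist x (k⁻¹ • x) = dist x (k • x) := fun k => dist_inv_smul x k
  have hSinv : ∀ k, k ∈ S ↔ k⁻¹ ∈ S := by
    intro k
    rw [hS, Finset.mem_filter, Finset.mem_filter, mem_near, mem_near, hinvd]
  -- the short elements
  have hA : ∑ k ∈ (near G x x n).filter (fun k => ¬ L ≤ dist x (k • x)), |f k - f k⁻¹| ≤ ε' * N := by
    have h1 : ∑ k ∈ (near G x x n).filter (fun k => ¬ L ≤ dist x (k • x)), |f k - f k⁻¹| ≤ KL := by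
      rw [hKL]
      refine Finset.sum_le_sum_of_subset_of_nonneg ?_ fun _ _ _ => abs_nonneg _
      intro k hk
      rw [Finset.mem_filter, not_le] at hk
      exact mem_near.2 hk.2.le
    have h2 := hn₂ n hnn₂
    rw [div_le_iff₀ hε'0, ← hN] at h2
    linarith
  have hB1 : ∑ k ∈ S, |f (q (rad x t (k • x))) - f k| ≤ ε' * N := by
    have h1 := hn₁ n hnn₁ f hW
    rw [← hN] at h1
    refine (Finset.sum_le_sum_of_subset_of_nonneg ?_ fun _ _ _ => abs_nonneg _).trans h1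
    intro k hk
    rw [Finset.mem_filter]
    exact ⟨hSsub hk, (htT.trans hTL).trans (hSL k hk)⟩
  have hB4 : ∑ k ∈ S, |f (q (rad x t (k⁻¹ • x))) - f k⁻¹| ≤ ε' * N := by
    refine le_trans (le_of_eq ?_) hB1
    refine Finset.sum_equiv (Equiv.inv G) (fun k => ?_) fun k _ => rfl
    rw [Equiv.inv_apply]
    exact hSinv k
  have hw' : ∀ A : Finset G, (∀ g ∈ A, (t : ℝ) - D ≤ dist x (g • x)) → ∑ g ∈ A, ep f F p g ≤ w := by
    intro A hA
    exact hR A fun g hg => (by linarith : R ≤ (t : ℝ) - D).trans (hA g hg)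
  have hB2 : ∑ k ∈ S, |f (q (rad x t (z k))) - f (q (rad x t (k • x)))| ≤ ε' * N := by
    have h1 := hhalf f t T w μ n S z v (Equiv.refl G) (fun _ => rfl) ht2 hT.ge hμ0 hw0.le hnn₃ hSsub hw' (by
      intro k hk
      obtain ⟨h1, h2, h3, h4, h5, h6, h7⟩ := hsec k (hSL k hk)
      exact ⟨hTL.trans (hSL k hk), h1, h3, h4, h7⟩)
    rw [← hN] at h1
    exact h1.trans (mul_le_mul_of_nonneg_right hbound hN0)
  have hB3 : ∑ k ∈ S, |f (q (rad x t (z k))) - f (q (rad x t (k⁻¹ • x)))| ≤ ε' * N := by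
    have h1 := hhalf f t T w μ n S z u (Equiv.inv G) (fun k => hinvd k) ht2 hT.ge hμ0 hw0.le hnn₃ hSsub hw' (by
      intro k hk
      obtain ⟨h1, h2, h3, h4, h5, h6, h7⟩ := hsec k (hSL k hk)
      exact ⟨hTL.trans (hSL k hk), h1, h2, h5, h6⟩)
    rw [← hN] at h1
    exact h1.trans (mul_le_mul_of_nonneg_right hbound hN0)
  have hB : ∑ k ∈ S, |f k - f k⁻¹| ≤ 4 * (ε' * N) := by
    have h1 : ∀ k ∈ S, |f k - f k⁻¹| ≤ |f (q (rad x t (k • x))) - f k| +
        |f (q (rad x t (z k))) - f (q (rad x t (k • x)))| +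
        |f (q (rad x t (z k))) - f (q (rad x t (k⁻¹ • x)))| + |f (q (rad x t (k⁻¹ • x))) - f k⁻¹| := by
      intro k _
      have e1 := abs_sub_comm (f (q (rad x t (k • x)))) (f k)
      have e2 := abs_sub_comm (f (q (rad x t (z k)))) (f (q (rad x t (k • x))))
      have h2 := abs_sub_le (f k) (f (q (rad x t (k • x)))) (f k⁻¹)
      have h3 := abs_sub_le (f (q (rad x t (k • x)))) (f (q (rad x t (z k)))) (f k⁻¹)
      have h4 := abs_sub_le (f (q (rad x t (z k)))) (f (q (rad x t (k⁻¹ • x)))) (f k⁻¹)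
      linarith
    have h2 := Finset.sum_le_sum h1
    rw [Finset.sum_add_distrib, Finset.sum_add_distrib, Finset.sum_add_distrib] at h2
    linarith
  have hsum : ∑ k ∈ near G x x n, |f k - f k⁻¹| = ∑ k ∈ S, |f k - f k⁻¹| +
      ∑ k ∈ (near G x x n).filter (fun k => ¬ L ≤ dist x (k • x)), |f k - f k⁻¹| :=
    (Finset.sum_filter_add_sum_filter_not _ _ _).symm
  rw [hsum]
  have h5 : ε * N = 6 * (ε' * N) := by rw [hε']; ring
  have h6 : 0 ≤ ε' * N := by positivity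
  linarith

end Pool.Agent.H25.Lp
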