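import Pool.Agent.H25.Lp.Curve2

/-!
# The label of a radial projection of a point of a segment

JOB LP-3 (`label_bound`): `z` is the point of `[z,v]` nearest to `x`, `R = dist x z`,
`ℓ = dist z v`, `z' = pt z v a`, `b = dist z z' = a ℓ`, `r = dist x z'`, `Rv = dist x v`.
(i) `r^2 ≥ R^2 + b^2`: for `s ∈ (0,1]` the point `pt z z' s = pt z v (s a)` satisfies
`R^2 ≤ dist x (pt z z' s)^2 ≤ (1-s) R^2 + s r^2 - s(1-s) b^2` (`cn_pt`), divide by `s`, let `s → 0`
(or use `obtuse` from H29/Convex for the convex set of all `pt z v s`). In particular (`a = 1`)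
`Rv^2 ≥ R^2 + ℓ^2`.
Put `c = (Rv^2 + r^2 - (ℓ-b)^2)/(2 Rv r)` (cosine of the comparison angle at `x` between `z'` and `v`).
By (i) the numerator is `≥ 2 R^2 + 2 b ℓ`; so `c ≥ (bℓ+R^2)/(Rv r) ≥ (bℓ+R^2)/((R+ℓ)(R+b)) ≥ min(1, b/R)/4 = c₀`
(if `b ≤ R`: `bℓ+R^2 ≥ b(ℓ+R)` and `b/(R+b) ≥ b/(2R)`; if `b ≥ R`: `ℓ ≥ b ≥ R`, `bℓ/((2ℓ)(2b)) = 1/4`).
Two-sided comparison (as in the proof of `rad_comp`, Bet/Rad, two uses of `cn_pt`; the fractions are `t/r` and
`T/Rv`; note `dist x v ≥ dist x z ≥ T`):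
`dist (rad x t z') (rad x T v)^2 ≤ t^2 + T^2 - 2 t T c ≤ t^2 + T^2 - 2 t T c₀
≤ (T - t c₀ + t^2/(2T))^2` (difference `(t c₀ - t^2/(2T))^2`), and `t^2/(2T) ≤ 1/2`, `T - t c₀ ≥ 0`.
-/

open Set

namespace Pool.Agent.H25.Lp

open Pool.Agent.H29 Pool.Agent.H25.Bet Real

variable {X : Type*} [MetricSpace X] [IsCAT0 X]

/-- the angle at the nearest point is obtuse -/
lemma near_obtuse {x z v : X} {a : ℝ}
    (hnear : ∀ s ∈ Icc (0 : ℝ) 1, dist x z ≤ dist x (pt z v s)) (ha : a ∈ Icc (0 : ℝ) 1) :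
    dist x z ^ 2 + (a * dist z v) ^ 2 ≤ dist x (pt z v a) ^ 2 := by
  have key : ∀ s ∈ Ioc (0 : ℝ) 1,
      dist x z ^ 2 + (1 - s) * (a * dist z v) ^ 2 ≤ dist x (pt z v a) ^ 2 := by
    intro s hs
    have hsI : s ∈ Icc (0 : ℝ) 1 := ⟨hs.1.le, hs.2⟩
    have h1 := cn_pt x z (pt z v a) hsI
    rw [pt_pt z v hsI ha, dist_left_pt z v ha] at h1
    have hsa : s * a ∈ Icc (0 : ℝ) 1 := ⟨mul_nonneg hsI.1 ha.1, mul_le_one₀ hsI.2 ha.1 ha.2⟩
    have h2 := hnear (s * a) hsa
    have h3 : dist x z ^ 2 ≤ dist x (pt z v (s * a)) ^ 2 := by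
      exact pow_le_pow_left₀ dist_nonneg h2 2
    have h4 : s * (dist x z ^ 2 + (1 - s) * (a * dist z v) ^ 2) ≤ s * dist x (pt z v a) ^ 2 := by
      nlinarith [h1, h3]
    exact le_of_mul_le_mul_left h4 hs.1
  by_contra hc
  rw [not_le] at hc
  set B := (a * dist z v) ^ 2 with hB
  have hB0 : 0 ≤ B := sq_nonneg _
  set e := dist x z ^ 2 + B - dist x (pt z v a) ^ 2 with he
  have he0 : 0 < e := by rw [he]; linarith
  have hs0 : 0 < min 1 (e / (2 * (B + 1))) := lt_min one_pos (by positivity)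
  have h5 := key (min 1 (e / (2 * (B + 1)))) ⟨hs0, min_le_left _ _⟩
  have h6 : min 1 (e / (2 * (B + 1))) * B ≤ e / (2 * (B + 1)) * B :=
    mul_le_mul_of_nonneg_right (min_le_right _ _) hB0
  have h7 : e / (2 * (B + 1)) * B ≤ e / 2 := by
    rw [div_mul_eq_mul_div, div_le_div_iff₀ (by positivity) two_pos]
    nlinarith
  have h8 : (1 - min 1 (e / (2 * (B + 1)))) * B = B - min 1 (e / (2 * (B + 1))) * B := by ring
  rw [h8] at h5
  linarith

lemma label_bound {x z v : X} {t T a : ℝ} (ht : 1 ≤ t) (hT : t ^ 2 ≤ T) (hz : T ≤ dist x z)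
    (hnear : ∀ s ∈ Icc (0 : ℝ) 1, dist x z ≤ dist x (pt z v s)) (ha : a ∈ Icc (0 : ℝ) 1) :
    dist (rad x t (pt z v a)) (rad x T v) ≤
      T - t * (min 1 (a * dist z v / dist x z) / 4) + 1 := by
  have ht0 : 0 < t := lt_of_lt_of_le one_pos ht
  have htT : t ≤ T := by nlinarith
  have hT0 : 0 < T := lt_of_lt_of_le ht0 htT
  have hR0 : 0 < dist x z := lt_of_lt_of_le hT0 hz
  have h1a := near_obtuse hnear ha
  have h1b := near_obtuse hnear (show (1 : ℝ) ∈ Icc (0 : ℝ) 1 from ⟨zero_le_one, le_rfl⟩)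
  rw [one_mul, pt_one] at h1b
  have hza := hnear a ha
  have hzv := hnear 1 ⟨zero_le_one, le_rfl⟩
  rw [pt_one] at hzv
  have hdl := dist_left_pt z v ha
  have hdr := dist_pt_right z v ha
  have htr := dist_triangle x z (pt z v a)
  have htv := dist_triangle x z v
  rw [hdl] at htr
  have hl0 : 0 ≤ dist z v := dist_nonneg
  generalize hz' : pt z v a = z' at *
  set R := dist x z with hR
  set l := dist z v with hl
  set r := dist x z' with hr
  set Rv := dist x v with hRv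
  have hr0 : 0 < r := lt_of_lt_of_le hR0 hza
  have hRv0 : 0 < Rv := lt_of_lt_of_le hR0 hzv
  have htr' : t ≤ r := htT.trans (hz.trans hza)
  have hTv : T ≤ Rv := hz.trans hzv
  have hal := rad_mem ht0.le htr'
  have halr := div_mul_dist ht0.le htr'
  have hbe := rad_mem hT0.le hTv
  have hber := div_mul_dist hT0.le hTv
  have hb0 : 0 ≤ a * l := mul_nonneg ha.1 hl0
  have hbl : a * l ≤ l := mul_le_of_le_one_left hl0 ha.2
  have hc0 : 0 ≤ min 1 (a * l / R) := le_min zero_le_one (div_nonneg hb0 hR0.le)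
  have hc1 : min 1 (a * l / R) ≤ 1 := min_le_left _ _
  have hcmp : min 1 (a * l / R) / 4 * (r * Rv) ≤ R ^ 2 + a * l * l := by
    have e1 : r * Rv ≤ (R + a * l) * (R + l) :=
      mul_le_mul htr htv hRv0.le (by linarith)
    have e2 : min 1 (a * l / R) / 4 * (r * Rv) ≤
        min 1 (a * l / R) / 4 * ((R + a * l) * (R + l)) :=
      mul_le_mul_of_nonneg_left e1 (by linarith)
    refine e2.trans ?_
    rcases le_total (a * l) R with hbR | hbR
    · have e3 : min 1 (a * l / R) / 4 * ((R + a * l) * (R + l)) ≤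
          a * l / R / 4 * ((R + R) * (R + l)) := by
        refine mul_le_mul ?_ ?_ (by positivity) (by positivity)
        · have := min_le_right 1 (a * l / R)
          linarith
        · exact mul_le_mul_of_nonneg_right (by linarith) (by linarith)
      have e4 : a * l / R / 4 * ((R + R) * (R + l)) = a * l * (R + l) / 2 := by
        field_simp
        ring
      rw [e4] at e3
      nlinarith
    · have e3 : min 1 (a * l / R) / 4 * ((R + a * l) * (R + l)) ≤
          1 / 4 * ((a * l + a * l) * (l + l)) := by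
        refine mul_le_mul ?_ ?_ (by positivity) (by positivity)
        · linarith
        · exact mul_le_mul (by linarith) (by linarith) (by linarith) (by linarith)
      nlinarith
  have h2 := cn_pt v x z' hal
  have h3 := cn_pt (pt x z' (t / r)) x v hbe
  rw [dist_comm (pt x z' (t / r)) x, dist_left_pt x z' hal, halr,
    dist_comm (pt x z' (t / r)) v] at h3
  rw [dist_comm v x, dist_comm v z', hdr] at h2
  have h4 := mul_le_mul_of_nonneg_left h2 hbe.1
  rw [rad, rad]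
  have h5 : dist (pt x z' (t / r)) (pt x v (T / Rv)) ^ 2 ≤
      t ^ 2 + T ^ 2 - (t / r) * (T / Rv) * (Rv ^ 2 + r ^ 2 - ((1 - a) * l) ^ 2) := by
    have e1 : (t / r) ^ 2 * r ^ 2 = t ^ 2 := by rw [← mul_pow, halr]
    have e2 : (T / Rv) ^ 2 * Rv ^ 2 = T ^ 2 := by rw [← mul_pow, hber]
    nlinarith [h3, h4, e1, e2]
  have h6 : 2 * (R ^ 2 + a * l * l) ≤ Rv ^ 2 + r ^ 2 - ((1 - a) * l) ^ 2 := by
    nlinarith [h1a, h1b]
  have h7 : (t / r) * (T / Rv) * (2 * (min 1 (a * l / R) / 4 * (r * Rv))) ≤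
      (t / r) * (T / Rv) * (Rv ^ 2 + r ^ 2 - ((1 - a) * l) ^ 2) :=
    mul_le_mul_of_nonneg_left (by linarith) (mul_nonneg hal.1 hbe.1)
  have h8 : (t / r) * (T / Rv) * (2 * (min 1 (a * l / R) / 4 * (r * Rv))) =
      2 * t * T * (min 1 (a * l / R) / 4) := by
    field_simp
  rw [h8] at h7
  set c := min 1 (a * l / R) / 4 with hc
  have hcc : 0 ≤ c := by rw [hc]; linarith
  have hcc1 : c ≤ 1 := by rw [hc]; linarith
  have htc : t * c ≤ T := le_trans (mul_le_of_le_one_right ht0.le hcc1) htT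
  have h9 : dist (pt x z' (t / r)) (pt x v (T / Rv)) ^ 2 ≤ (T - t * c + 1) ^ 2 := by
    nlinarith [h5, h7, sq_nonneg (t * c - 1), sq_nonneg t]
  exact (le_abs_self _).trans (abs_le_of_sq_le_sq h9 (by linarith))

end Pool.Agent.H25.Lp
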