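import Pool.Agent.H25.Lp.Inv

/-!
# Invariance of the averages under left multiplication

Notation: `|g| = dist x (g•x)`, `near G x x n` is the ball of radius `n`, `N(n)` its cardinality.

JOB LP-11 `avg_left` (uses `avg_inv`, `nb_ratio`). For `h : G` and `ε > 0`: substitute `k = l⁻¹` in the sum of
`|f (h k) - f k|` over the ball (invariant under inversion, `dist_inv_smul`):
`f (h l⁻¹) = f ((l h⁻¹)⁻¹) ~ f (l h⁻¹)` (`avg_inv` for the ball of radius `n + ⌈|h|⌉`: `l ↦ l h⁻¹` is injective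
from `near G x x n` into it; and `nb_ratio` bounds its cardinality by `C N(n)`) `~ f l` (as
`g ↦ |f (g h⁻¹) - f g|` tends to `0` at infinity by summability, it is `≤ ε'` outside a finite set, and the sum
over the ball is `≤ 2 ε' N(n)` for large `n`, `nb_tendsto`) `~ f (l⁻¹)` (`avg_inv`).
-/

open Set

namespace Pool.Agent.H25.Lp

open Pool.Agent.H29 Pool.Agent.H25.Bet

variable {G X : Type*} [Group G] [MetricSpace X] [IsCAT0 X] [ProperSpace X] [MulAction G X]
  [IsIsometricSMul G X] [ProperlyDiscontinuousSMul G X]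

/-- the right translates differ little on average -/
lemma left_right (hna : NonAmen G) {p : ℝ} (hp : 1 ≤ p) {f : G → ℝ} {h : G}
    (hf : Summable fun g => |f (g * h) - f g| ^ p) (x : X) {ε : ℝ} (hε : 0 < ε) :
    ∃ n₀ : ℕ, ∀ n : ℕ, n₀ ≤ n →
      ∑ k ∈ near G x x n, |f (k * h) - f k| ≤ ε * (near G x x n).card := by
  have hp0 : 0 < p := by linarith
  have he : 0 < (ε / 2) ^ p := Real.rpow_pos_of_pos (by positivity) p
  have ht := hf.tendsto_cofinite_zero
  have hev : ∀ᶠ g in Filter.cofinite, |f (g * h) - f g| ^ p < (ε / 2) ^ p :=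
    ht.eventually (gt_mem_nhds he)
  have hfin : {g : G | ¬ |f (g * h) - f g| ^ p < (ε / 2) ^ p}.Finite := hev
  classical
  set A : Finset G := hfin.toFinset with hA
  set K : ℝ := ∑ g ∈ A, |f (g * h) - f g| with hK
  have hlim := (nb_tendsto (G := G) hna x).eventually (Filter.eventually_ge_atTop (2 * K / ε))
  obtain ⟨n₀, hn₀⟩ := Filter.eventually_atTop.1 hlim
  refine ⟨n₀, fun n hn => ?_⟩
  have h1 := hn₀ n hn
  have h2 : K ≤ ε / 2 * ((near G x x n).card : ℝ) := by
    rw [div_le_iff₀ hε] at h1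
    linarith
  have h3 : ∑ k ∈ near G x x n, |f (k * h) - f k| ≤
      ∑ k ∈ near G x x n, ((if k ∈ A then |f (k * h) - f k| else 0) + ε / 2) := by
    refine Finset.sum_le_sum fun k _ => ?_
    by_cases hk : k ∈ A
    · rw [if_pos hk]; linarith
    · rw [if_neg hk, zero_add]
      rw [hA, Set.Finite.mem_toFinset, Set.mem_ofPred_eq, not_not] at hk
      exact ((Real.rpow_lt_rpow_iff (abs_nonneg _) (by positivity) hp0).1 hk).le
  have h4 : ∑ k ∈ near G x x n, (if k ∈ A then |f (k * h) - f k| else 0) ≤ K := by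
    rw [← Finset.sum_filter, hK]
    refine Finset.sum_le_sum_of_subset_of_nonneg (fun k hk => (Finset.mem_filter.1 hk).2)
      (fun _ _ _ => abs_nonneg _)
  rw [Finset.sum_add_distrib, Finset.sum_const, nsmul_eq_mul] at h3
  have h5 : ((near G x x n).card : ℝ) * (ε / 2) = ε / 2 * ((near G x x n).card : ℝ) := mul_comm _ _
  have h6 : ε * ((near G x x n).card : ℝ) =
      ε / 2 * ((near G x x n).card : ℝ) + ε / 2 * ((near G x x n).card : ℝ) := by ring
  linarith

theorem avg_left (hcoc : Cocompact G X) (hna : NonAmen G)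
    (hno : ¬ ∃ g : G, IsRankOne (X := X) g) {p : ℝ} (hp : 1 ≤ p) {f : G → ℝ}
    (hf : ∀ h : G, Summable fun g => |f (g * h) - f g| ^ p) (x : X) (h : G) {ε : ℝ}
    (hε : 0 < ε) : ∃ n₀ : ℕ, ∀ n : ℕ, n₀ ≤ n →
      ∑ k ∈ near G x x n, |f (h * k) - f k| ≤ ε * (near G x x n).card := by
  classical
  obtain ⟨D, hD, hr⟩ := nb_ratio (G := G) hcoc x
  have hm := Nat.le_ceil (dist x (h • x))
  set m : ℕ := ⌈dist x (h • x)⌉₊ with hmdef
  obtain ⟨C, hC, hCr⟩ := hr (m : ℝ) (Nat.cast_nonneg m)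
  have hC1 : (0 : ℝ) < C + 1 := by linarith
  have he1 : 0 < ε / 3 / (C + 1) := by positivity
  have he3 : 0 < ε / 3 := by positivity
  obtain ⟨n₁, h1⟩ := avg_inv hcoc hna hno hp hf x he1
  obtain ⟨n₂, h2⟩ := left_right hna hp (hf h⁻¹) x he3
  obtain ⟨n₃, h3⟩ := avg_inv hcoc hna hno hp hf x he3
  refine ⟨max (max n₁ n₂) (max n₃ ⌈D⌉₊), fun n hn => ?_⟩
  have hn1 : n₁ ≤ n := le_trans (le_trans (le_max_left _ _) (le_max_left _ _)) hn
  have hn2 : n₂ ≤ n := le_trans (le_trans (le_max_right _ _) (le_max_left _ _)) hn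
  have hn3 : n₃ ≤ n := le_trans (le_trans (le_max_left _ _) (le_max_right _ _)) hn
  have hn4 : ⌈D⌉₊ ≤ n := le_trans (le_trans (le_max_right _ _) (le_max_right _ _)) hn
  have hDn : D ≤ (n : ℝ) := le_trans (Nat.le_ceil D) (by exact_mod_cast hn4)
  have i1 := h1 (n + m) (le_trans hn1 (Nat.le_add_right _ _))
  have i2 := h2 n hn2
  have i3 := h3 n hn3
  have i4 := hCr (n : ℝ) hDn
  rw [Nat.cast_add] at i1
  have s1 : ∑ l ∈ near G x x n, |f (h * l⁻¹) - f (l * h⁻¹)| ≤
      ∑ k ∈ near G x x ((n : ℝ) + m), |f k - f k⁻¹| := by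
    have e1 : ∑ l ∈ near G x x n, |f (h * l⁻¹) - f (l * h⁻¹)| =
        ∑ k ∈ (near G x x n).image (fun l => l * h⁻¹), |f k - f k⁻¹| := by
      rw [Finset.sum_image (fun a _ b _ hab => mul_right_cancel hab)]
      refine Finset.sum_congr rfl fun l _ => ?_
      have e2 : (l * h⁻¹)⁻¹ = h * l⁻¹ := by group
      rw [e2, abs_sub_comm]
    rw [e1]
    refine Finset.sum_le_sum_of_subset_of_nonneg (fun k hk => ?_) (fun _ _ _ => abs_nonneg _)
    obtain ⟨l, hl, rfl⟩ := Finset.mem_image.1 hk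
    rw [mem_near] at hl ⊢
    calc dist x ((l * h⁻¹) • x) ≤ dist x (l • x) + dist (l • x) ((l * h⁻¹) • x) := dist_triangle _ _ _
      _ = dist x (l • x) + dist x (h • x) := by
          rw [mul_smul, dist_smul, dist_inv_smul]
      _ ≤ (n : ℝ) + m := add_le_add hl hm
  have s0 : ∑ k ∈ near G x x n, |f (h * k) - f k| = ∑ l ∈ near G x x n, |f (h * l⁻¹) - f l⁻¹| := by
    refine Finset.sum_nbij' (fun k => k⁻¹) (fun k => k⁻¹) ?_ ?_ ?_ ?_ ?_
    · intro k hk
      rw [mem_near] at hk ⊢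
      rw [dist_inv_smul]; exact hk
    · intro k hk
      rw [mem_near] at hk ⊢
      rw [dist_inv_smul]; exact hk
    · intro k _; exact inv_inv k
    · intro k _; exact inv_inv k
    · intro k _
      show |f (h * k) - f k| = |f (h * (k⁻¹)⁻¹) - f (k⁻¹)⁻¹|
      rw [inv_inv]
  have s2 : ∑ l ∈ near G x x n, |f (h * l⁻¹) - f l⁻¹| ≤
      ∑ l ∈ near G x x n, |f (h * l⁻¹) - f (l * h⁻¹)| +
        (∑ l ∈ near G x x n, |f (l * h⁻¹) - f l| + ∑ l ∈ near G x x n, |f l - f l⁻¹|) := by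
    rw [← Finset.sum_add_distrib, ← Finset.sum_add_distrib]
    refine Finset.sum_le_sum fun l _ => ?_
    have a1 := abs_sub_le (f (h * l⁻¹)) (f (l * h⁻¹)) (f l⁻¹)
    have a2 := abs_sub_le (f (l * h⁻¹)) (f l) (f l⁻¹)
    linarith
  have hN : (0 : ℝ) ≤ ((near G x x n).card : ℝ) := Nat.cast_nonneg _
  have s3 : ε / 3 / (C + 1) * ((near G x x ((n : ℝ) + m)).card : ℝ) ≤
      ε / 3 * ((near G x x n).card : ℝ) := by
    calc ε / 3 / (C + 1) * ((near G x x ((n : ℝ) + m)).card : ℝ)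
        ≤ ε / 3 / (C + 1) * ((C + 1) * ((near G x x n).card : ℝ)) := by
          refine mul_le_mul_of_nonneg_left (le_trans i4 ?_) he1.le
          exact mul_le_mul_of_nonneg_right (by linarith) hN
      _ = ε / 3 * ((near G x x n).card : ℝ) := by
          field_simp
  rw [s0]
  linarith

end Pool.Agent.H25.Lp
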