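import Pool.Agent.H25.Lp.Left

/-!
# The limit at infinity

Notation: `|g| = dist x (g•x)`, `near G x x n` is the ball of radius `n`, `N(n)` its cardinality.

JOB LP-12 `exists_limit` (uses `avg_radial`, `avg_left`, `nb_tendsto`). Choose `D, q` (`hcoc.orbit`, `choose`),
`F = near G x x (2D+1)`, `W` = total `p`-energy of `f` (`ep f F p` is summable). First: for every `ε > 0` there is
`R` such that for all `g` with `|g| ≥ R` and all
large `n`: `∑_{k ∈ ball n} |f (g k) - f g| ≤ ε N(n)`. Apply `avg_radial` to the function `f_g = f (g * ·)`, whose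
energy is the translate of that of `f` (so the same bound `W`): this gives `t, n₀` independent of `g`; and for
`|k| ≥ t` the element
`q (rad x t (k•x))` lies in the finite set `near G x x (t+D)`; for each `h` in it
`|f (g h) - f g| → 0` as `g → ∞` (cofinite; summability of `|f (g h) - f g|^p` over `g`), so it is `≤ ε/3` for
all `h` in this finite set and `|g| ≥ R`. The `k` with `|k| < t` lie in `near G x x t`, the same bound applies.
Then with `m_n` the average of `f` over the ball: `|f g - m_n| ≤ ε + (avg_left for h = g) ≤ 2ε` for `n` large,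
for every `g` with `|g| ≥ R`. Hence `|f g - f g'| ≤ 4ε` for `|g|, |g'| ≥ R`: Cauchy, so `f` has a limit `a`
along the cofinite filter (`G` is infinite since the balls grow, `nb_tendsto`; or take any sequence `g_i` with
`|g_i| → ∞`), which is the claim.
-/

open Set

namespace Pool.Agent.H25.Lp

open Pool.Agent.H29 Pool.Agent.H25.Bet

variable {G X : Type*} [Group G] [MetricSpace X] [IsCAT0 X] [ProperSpace X] [MulAction G X]
  [IsIsometricSMul G X] [ProperlyDiscontinuousSMul G X]

/-- a summable `p`-energy in direction `h` makes the difference small outside a finite set -/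
lemma Lim_small {H : Type*} [Group H] {p : ℝ} (hp : 1 ≤ p) {f : H → ℝ} {h : H}
    (hf : Summable fun g => |f (g * h) - f g| ^ p) {ε : ℝ} (hε : 0 < ε) :
    {g | ε ≤ |f (g * h) - f g|}.Finite := by
  have h1 := hf.tendsto_cofinite_zero
  have h2 : ∀ᶠ g in Filter.cofinite, |f (g * h) - f g| ^ p < ε ^ p :=
    h1.eventually (gt_mem_nhds (Real.rpow_pos_of_pos hε p))
  refine Set.Finite.subset (Filter.eventually_cofinite.1 h2) ?_
  intro g hg h3
  exact absurd (Real.rpow_le_rpow hε.le hg (by linarith)) (not_le.2 h3)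

lemma Lim_ep_nonneg {H : Type*} [Group H] (f : H → ℝ) (F : Finset H) (p : ℝ) (g : H) :
    0 ≤ ep f F p g :=
  Finset.sum_nonneg fun _ _ => Real.rpow_nonneg (abs_nonneg _) p

/-- the energy of a left translate -/
lemma Lim_ep_translate {H : Type*} [Group H] {f : H → ℝ} {F : Finset H} {p W : ℝ}
    (hW : ∀ A : Finset H, ∑ g ∈ A, ep f F p g ≤ W) (g₀ : H) (A : Finset H) :
    ∑ g ∈ A, ep (fun k => f (g₀ * k)) F p g ≤ W := by
  classical
  have h1 : ∑ g ∈ A, ep (fun k => f (g₀ * k)) F p g = ∑ g ∈ A.image (fun k => g₀ * k), ep f F p g := by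
    rw [Finset.sum_image (fun a _ b _ hab => mul_left_cancel hab)]
    refine Finset.sum_congr rfl fun g _ => ?_
    simp only [ep, mul_assoc]
  rw [h1]
  exact hW _

/-- outside a finite set, all averages of `k ↦ |f (g k) - f g|` over large balls are small -/
lemma Lim_ball (hcoc : Cocompact G X) (hna : NonAmen G) {p : ℝ} (hp : 1 ≤ p) {f : G → ℝ}
    (hf : ∀ h : G, Summable fun g => |f (g * h) - f g| ^ p) (x : X) {ε : ℝ} (hε : 0 < ε) :
    ∃ B : Set G, B.Finite ∧ ∃ n₀ : ℕ, ∀ g, g ∉ B → ∀ n : ℕ, n₀ ≤ n →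
      ∑ k ∈ near G x x n, |f (g * k) - f g| ≤ ε * (near G x x n).card := by
  classical
  obtain ⟨D₀, hD₀⟩ := hcoc.orbit x
  choose q hq₀ using hD₀
  obtain ⟨D, hD, hq⟩ : ∃ D : ℝ, 0 ≤ D ∧ ∀ z, dist z (q z • x) ≤ D :=
    ⟨max D₀ 0, le_max_right _ _, fun z => (hq₀ z).trans (le_max_left _ _)⟩
  set F := near G x x (2 * D + 1) with hF
  have hs : Summable (ep f F p) := summable_sum fun h _ => hf h
  have hW : ∀ A : Finset G, ∑ g ∈ A, ep f F p g ≤ ∑' g, ep f F p g := fun A =>
    hs.sum_le_tsum A fun g _ => Lim_ep_nonneg f F p g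
  obtain ⟨t₀, ht₀⟩ := avg_radial hcoc hna hp hq (∑' g, ep f F p g) (half_pos hε)
  obtain ⟨n₀, hn₀⟩ := ht₀ t₀ le_rfl
  refine ⟨⋃ h ∈ near G x x (t₀ + D), {g | ε / 2 ≤ |f (g * h) - f g|}, ?_, n₀, ?_⟩
  · exact Set.Finite.biUnion (Finset.finite_toSet _) fun h _ => Lim_small hp (hf h) (half_pos hε)
  intro g hg n hn
  have hg' : ∀ h ∈ near G x x (t₀ + D), |f (g * h) - f g| ≤ ε / 2 := by
    intro h hh
    by_contra hcon
    push Not at hcon
    exact hg (Set.mem_biUnion (show h ∈ (near G x x (t₀ + D) : Set G) from hh) hcon.le)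
  have h1 := hn₀ n hn (fun k => f (g * k)) (fun A => Lim_ep_translate hW g A)
  have h2 : ∀ k ∈ near G x x n, |f (g * k) - f g| ≤
      ε / 2 + (if (t₀ : ℝ) ≤ dist x (k • x) then
        |f (g * q (rad x t₀ (k • x))) - f (g * k)| else 0) := by
    intro k _
    by_cases hk : (t₀ : ℝ) ≤ dist x (k • x)
    · rw [if_pos hk]
      have hmem : q (rad x t₀ (k • x)) ∈ near G x x (t₀ + D) := by
        rw [mem_near]
        refine (dist_triangle x (rad x t₀ (k • x)) _).trans ?_
        rw [dist_rad (Nat.cast_nonneg t₀) hk]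
        exact add_le_add le_rfl (hq _)
      have h3 := hg' _ hmem
      have h4 : |f (g * k) - f g| ≤ |f (g * q (rad x t₀ (k • x))) - f (g * k)| +
          |f (g * q (rad x t₀ (k • x))) - f g| := by
        have h5 := abs_sub_le (f (g * k)) (f (g * q (rad x t₀ (k • x)))) (f g)
        rw [abs_sub_comm (f (g * k)) (f (g * q (rad x t₀ (k • x))))] at h5
        exact h5
      linarith
    · rw [if_neg hk, add_zero]
      push Not at hk
      exact hg' k (mem_near.2 (by linarith))
  refine (Finset.sum_le_sum h2).trans ?_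
  rw [Finset.sum_add_distrib, Finset.sum_const, nsmul_eq_mul, ← Finset.sum_filter]
  have h3 : ∑ k ∈ (near G x x n).filter (fun k => (t₀ : ℝ) ≤ dist x (k • x)),
      |f (g * q (rad x t₀ (k • x))) - f (g * k)| ≤ ε / 2 * (near G x x n).card := h1
  linarith

theorem exists_limit (hcoc : Cocompact G X) (hna : NonAmen G)
    (hno : ¬ ∃ g : G, IsRankOne (X := X) g) {p : ℝ} (hp : 1 ≤ p) {f : G → ℝ}
    (hf : ∀ h : G, Summable fun g => |f (g * h) - f g| ^ p) (x : X) :
    ∃ a : ℝ, ∀ ε > 0, {g | ε ≤ |f g - a|}.Finite := by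
  classical
  rcases finite_or_infinite G with hG | hG
  · exact ⟨0, fun ε _ => Set.toFinite _⟩
  -- `f` is Cauchy at infinity
  have key : ∀ ε : ℝ, 0 < ε → ∃ B : Set G, B.Finite ∧ ∀ g, g ∉ B → ∀ g', g' ∉ B → |f g - f g'| ≤ ε := by
    intro ε hε
    obtain ⟨B, hB, n₀, hn₀⟩ := Lim_ball hcoc hna hp hf x (show 0 < ε / 4 by linarith)
    refine ⟨B, hB, fun g hg g' hg' => ?_⟩
    obtain ⟨n₁, hn₁⟩ := avg_left hcoc hna hno hp hf x g (show 0 < ε / 4 by linarith)
    obtain ⟨n₂, hn₂⟩ := avg_left hcoc hna hno hp hf x g' (show 0 < ε / 4 by linarith)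
    obtain ⟨n₃, hn₃⟩ := Filter.eventually_atTop.1 ((nb_tendsto hna x).eventually_ge_atTop 1)
    set n := max (max n₀ n₁) (max n₂ n₃) with hn
    have h0 : n₀ ≤ n := (le_max_left _ _).trans (le_max_left _ _)
    have h1 : n₁ ≤ n := (le_max_right _ _).trans (le_max_left _ _)
    have h2 : n₂ ≤ n := (le_max_left _ _).trans (le_max_right _ _)
    have h3 : n₃ ≤ n := (le_max_right _ _).trans (le_max_right _ _)
    have hN : (1 : ℝ) ≤ (near G x x n).card := hn₃ n h3
    have a1 := hn₀ g hg n h0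
    have a2 := hn₀ g' hg' n h0
    have b1 := hn₁ n h1
    have b2 := hn₂ n h2
    have hsum : ∑ k ∈ near G x x n, |f g - f g'| ≤ ∑ k ∈ near G x x n, (|f (g * k) - f g| +
        |f (g * k) - f k| + |f (g' * k) - f k| + |f (g' * k) - f g'|) := by
      refine Finset.sum_le_sum fun k _ => ?_
      have e : f g - f g' = -(f (g * k) - f g) + (f (g * k) - f k) - (f (g' * k) - f k) +
          (f (g' * k) - f g') := by ring
      rw [e]
      refine (abs_add_le _ _).trans (add_le_add ?_ le_rfl)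
      refine (abs_sub _ _).trans (add_le_add ?_ le_rfl)
      refine (abs_add_le _ _).trans (add_le_add ?_ le_rfl)
      rw [abs_neg]
    rw [Finset.sum_const, nsmul_eq_mul, Finset.sum_add_distrib, Finset.sum_add_distrib,
      Finset.sum_add_distrib] at hsum
    have h5 : ((near G x x n).card : ℝ) * |f g - f g'| ≤ (near G x x n).card * ε := by linarith
    exact le_of_mul_le_mul_left h5 (by linarith)
  have hc : Cauchy (Filter.map f Filter.cofinite) := by
    rw [Metric.cauchy_iff]
    refine ⟨Filter.map_neBot, fun ε hε => ?_⟩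
    obtain ⟨B, hB, hB'⟩ := key (ε / 2) (half_pos hε)
    refine ⟨f '' Bᶜ, Filter.image_mem_map hB.compl_mem_cofinite, ?_⟩
    rintro _ ⟨g, hg, rfl⟩ _ ⟨g', hg', rfl⟩
    rw [Real.dist_eq]
    exact lt_of_le_of_lt (hB' g hg g' hg') (by linarith)
  obtain ⟨a, ha⟩ := CompleteSpace.complete hc
  refine ⟨a, fun ε hε => ?_⟩
  have h1 : ∀ᶠ g in Filter.cofinite, dist (f g) a < ε :=
    Metric.tendsto_nhds.1 (show Filter.Tendsto f Filter.cofinite (nhds a) from ha) ε hε
  refine Set.Finite.subset (Filter.eventually_cofinite.1 h1) fun g hg h2 => ?_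
  rw [Real.dist_eq] at h2
  exact absurd hg (not_le.2 h2)

end Pool.Agent.H25.Lp
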