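import Pool.Agent.H25.Lp.Grow

/-!
# The Sobolev inequality of a nonamenable group

JOB LP-6. Let `K, ε` be as in `NonAmen`.
(1) `iso1`: for a nonnegative finitely supported `ψ : G → ℝ`: `ε ∑_g ψ g ≤ ∑_{k ∈ K} ∑_g |ψ (g k) - ψ g|`
(finite sums; use `finsum`/`tsum` or sums over a large finite set). For `ψ = m 1_A`: the set
`A K \ A` has at least `ε |A|` elements, each is `g k` with `g ∈ A`, `k ∈ K`, `g k ∉ A`. In general
induct on the size of the support `A`: `m = min_A ψ > 0`, `ψ = m 1_A + ψ'`,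
`|ψ (gk) - ψ g| = m |1_A(gk) - 1_A(g)| + |ψ' (gk) - ψ' g|` for all `g, k`.
(2) For `a, b ≥ 0`, `η > 0` there is `Cη` with `|a^p - b^p| ≤ Cη |a-b|^p + η (a^p + b^p)` (for `a ≥ b`:
`a^p - b^p ≤ p (a-b) a^(p-1)` (mean value / Bernoulli) and `(a-b) a^(p-1) ≤ λ^(1-p)... `: if
`a - b ≤ δ a` it is `≤ δ a^p`, otherwise `a < (a-b)/δ` and it is `≤ δ^(1-p) (a-b)^p`).
(3) For finitely supported `φ ≥ 0`... with `ψ = |φ|^p`, `η = ε/(4 |K|)` (`K` is non empty): (1), (2)
and `∑_g ψ (g k) = ∑_g ψ g` give `∑ |φ|^p ≤ C ∑_{k∈K} ∑_g |φ (gk) - φ g|^p`.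
(4) `sobolev`: let `φ = f - a`, for `δ > 0` let `φ_δ = max (|φ| - δ) 0`: finite support, `|φ_δ (gk) -
φ_δ g| ≤ |f (gk) - f g|`. By (3) the finite sums of `φ_δ^p` are bounded by `C Σ` uniformly in `δ`; let `δ → 0`.
-/

open Set

namespace Pool.Agent.H25.Lp

/-! ### The isoperimetric inequality for functions -/

theorem sob_summable {G : Type*} {ψ : G → ℝ} (h : (Function.support ψ).Finite) : Summable ψ :=
  summable_of_hasFiniteSupport h

theorem sob_supp_mul {G : Type*} [Group G] {ψ : G → ℝ} (h : (Function.support ψ).Finite) (k : G) :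
    (Function.support fun g => ψ (g * k)).Finite := by
  have : (Function.support fun g => ψ (g * k)) = (fun g => g * k) ⁻¹' (Function.support ψ) := rfl
  rw [this]
  exact h.preimage (mul_left_injective k).injOn

theorem sob_supp_diff {G : Type*} [Group G] {ψ : G → ℝ} (h : (Function.support ψ).Finite) (k : G) :
    (Function.support fun g => |ψ (g * k) - ψ g|).Finite := by
  refine ((sob_supp_mul h k).union h).subset fun g hg => ?_
  by_contra hcon
  rw [Set.mem_union, not_or, Function.mem_support, Function.mem_support, not_not, not_not] at hcon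
  apply hg
  show |ψ (g * k) - ψ g| = 0
  rw [show ψ (g * k) = 0 from hcon.1, hcon.2]
  simp

theorem sob_tsum_mul {G : Type*} [Group G] (ψ : G → ℝ) (k : G) : ∑' g, ψ (g * k) = ∑' g, ψ g :=
  (Equiv.mulRight k).tsum_eq ψ

theorem sob_ind {G : Type*} [Group G] [DecidableEq G] {K : Finset G} {ε : ℝ}
    (hK : ∀ A : Finset G, (1 + ε) * A.card ≤ ({g | ∃ a ∈ A, ∃ k ∈ K, g = a * k} : Set G).ncard)
    (A : Finset G) : ε * A.card ≤ ∑ k ∈ K, ∑' g, |(if g * k ∈ A then (1 : ℝ) else 0) - if g ∈ A then 1 else 0| := by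
  have h1 : (({g | ∃ a ∈ A, ∃ k ∈ K, g = a * k} : Set G).ncard : ℝ) ≤ A.card +
      ∑ k ∈ K, ((A.filter fun g => g * k ∉ A).card : ℝ) := by
    have h2 : ({g | ∃ a ∈ A, ∃ k ∈ K, g = a * k} : Set G) ⊆
        ((A ∪ K.biUnion fun k => (A.filter fun g => g * k ∉ A).image fun g => g * k : Finset G) : Set G) := by
      rintro g ⟨a, ha, k, hk, rfl⟩
      rw [Finset.mem_coe, Finset.mem_union]
      by_cases h : a * k ∈ A
      · exact Or.inl h
      · refine Or.inr (Finset.mem_biUnion.2 ⟨k, hk, Finset.mem_image.2 ⟨a, Finset.mem_filter.2 ⟨ha, h⟩, rfl⟩⟩)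
    have h3 := Set.ncard_le_ncard h2 (Finset.finite_toSet _)
    rw [Set.ncard_coe_finset] at h3
    have h4 := h3.trans (Finset.card_union_le _ _)
    have h5 : (K.biUnion fun k => (A.filter fun g => g * k ∉ A).image fun g => g * k).card ≤
        ∑ k ∈ K, (A.filter fun g => g * k ∉ A).card :=
      Finset.card_biUnion_le.trans (Finset.sum_le_sum fun k _ => Finset.card_image_le)
    have h6 := h4.trans (Nat.add_le_add_left h5 _)
    exact_mod_cast h6
  have h2 := (hK A).trans h1
  have h3 : ε * A.card ≤ ∑ k ∈ K, ((A.filter fun g => g * k ∉ A).card : ℝ) := by linarith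
  refine h3.trans (Finset.sum_le_sum fun k _ => ?_)
  have hfin : (Function.support fun g : G => if g ∈ A then (1 : ℝ) else 0).Finite := by
    refine A.finite_toSet.subset fun g hg => ?_
    by_contra h
    apply hg
    rw [Finset.mem_coe] at h
    simp [h]
  have hs := sob_summable (sob_supp_diff hfin k)
  have h4 := hs.sum_le_tsum (A.filter fun g => g * k ∉ A) (fun g _ => abs_nonneg _)
  refine le_trans (le_of_eq ?_) h4
  rw [Finset.card_eq_sum_ones, Nat.cast_sum]
  refine Finset.sum_congr rfl fun g hg => ?_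
  rw [Finset.mem_filter] at hg
  simp [hg.1, hg.2]

/-- Step (1). -/
theorem sob_iso {G : Type*} [Group G] {K : Finset G} {ε : ℝ}
    (hK : ∀ A : Finset G, (1 + ε) * A.card ≤ ({g | ∃ a ∈ A, ∃ k ∈ K, g = a * k} : Set G).ncard) :
    ∀ (n : ℕ) (ψ : G → ℝ), (∀ g, 0 ≤ ψ g) → (h : (Function.support ψ).Finite) → h.toFinset.card = n →
      ε * ∑' g, ψ g ≤ ∑ k ∈ K, ∑' g, |ψ (g * k) - ψ g| := by
  classical
  intro n
  induction n using Nat.strong_induction_on with
  | _ n ih =>
  intro ψ h0 hfin hn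
  rcases hfin.toFinset.eq_empty_or_nonempty with he | hne
  · have hz : ∀ g, ψ g = 0 := by
      intro g
      by_contra h
      have : g ∈ hfin.toFinset := hfin.mem_toFinset.2 h
      rw [he] at this
      exact absurd this (Finset.notMem_empty g)
    simp [hz]
  · set A := hfin.toFinset with hA
    have hmemA : ∀ g, g ∈ A ↔ ψ g ≠ 0 := fun g => hfin.mem_toFinset
    obtain ⟨g₀, hg₀, hmin⟩ := A.exists_min_image ψ hne
    set m := ψ g₀ with hm
    have hmpos : 0 < m := lt_of_le_of_ne (h0 g₀) (Ne.symm ((hmemA g₀).1 hg₀))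
    let I : G → ℝ := fun g => if g ∈ A then 1 else 0
    let ψ' : G → ℝ := fun g => ψ g - m * I g
    have hI1 : ∀ g, g ∈ A → I g = 1 := fun g hg => if_pos hg
    have hI0 : ∀ g, g ∉ A → I g = 0 := fun g hg => if_neg hg
    have hz : ∀ g, g ∉ A → ψ g = 0 := fun g hg => by
      by_contra h
      exact hg ((hmemA g).2 h)
    have h0' : ∀ g, 0 ≤ ψ' g := by
      intro g
      by_cases hg : g ∈ A
      · show 0 ≤ ψ g - m * I g
        rw [hI1 g hg, mul_one]
        exact sub_nonneg.2 (hmin g hg)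
      · show 0 ≤ ψ g - m * I g
        rw [hI0 g hg, hz g hg]
        simp
    have hsub : Function.support ψ' ⊆ Function.support ψ := by
      intro g hg hzero
      apply hg
      have : g ∉ A := fun h => (hmemA g).1 h hzero
      show ψ g - m * I g = 0
      rw [hI0 g this, hzero]
      simp
    have hfin' : (Function.support ψ').Finite := hfin.subset hsub
    have hfinI : (Function.support I).Finite := by
      refine A.finite_toSet.subset fun g hg => ?_
      by_contra h
      exact hg (hI0 g h)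
    have hlt : hfin'.toFinset.card < n := by
      rw [← hn]
      refine Finset.card_lt_card ⟨fun g hg => ?_, fun hcon => ?_⟩
      · exact hfin.mem_toFinset.2 (hsub (hfin'.mem_toFinset.1 hg))
      · have := hfin'.mem_toFinset.1 (hcon hg₀)
        apply this
        show ψ g₀ - m * I g₀ = 0
        rw [hI1 g₀ hg₀, mul_one, ← hm, sub_self]
    have hrec := ih _ hlt ψ' h0' hfin' rfl
    have hind := sob_ind hK A
    have hsum : ∑' g, ψ g = m * A.card + ∑' g, ψ' g := by
      have e1 : ∑' g, I g = A.card := by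
        rw [tsum_eq_sum (s := A) (fun g hg => hI0 g hg)]
        rw [Finset.sum_congr rfl (fun g hg => hI1 g hg)]
        simp
      have e2 : ∑' g, ψ' g = ∑' g, ψ g - m * ∑' g, I g := by
        rw [← tsum_mul_left, ← (sob_summable hfin).tsum_sub ((sob_summable hfinI).mul_left m)]
      rw [e2, e1]
      ring
    have hdiff : ∀ k, ∑' g, |ψ (g * k) - ψ g| = m * ∑' g, |I (g * k) - I g| + ∑' g, |ψ' (g * k) - ψ' g| := by
      intro k
      rw [← tsum_mul_left, ← ((sob_summable (sob_supp_diff hfinI k)).mul_left m).tsum_add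
        (sob_summable (sob_supp_diff hfin' k))]
      refine tsum_congr fun g => ?_
      by_cases h1 : g * k ∈ A <;> by_cases h2 : g ∈ A
      · have a1 := h0' (g * k)
        have a2 := h0' g
        simp only [ψ', hI1 _ h1, hI1 _ h2] at a1 a2 ⊢
        rw [sub_self, abs_zero, mul_zero, zero_add]
        congr 1
        ring
      · have a1 := h0' (g * k)
        simp only [ψ', hI1 _ h1, hI0 _ h2, hz _ h2] at a1 ⊢
        have e1 : |ψ (g * k) - 0| = ψ (g * k) := by rw [sub_zero]; exact abs_of_nonneg (h0 _)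
        have e2 : |(1 : ℝ) - 0| = 1 := by norm_num
        have e3 : |ψ (g * k) - m * 1 - (0 - m * 0)| = ψ (g * k) - m := by
          rw [abs_of_nonneg (by linarith)]
          ring
        rw [e1, e2, e3]
        ring
      · have a2 := h0' g
        simp only [ψ', hI0 _ h1, hI1 _ h2, hz _ h1] at a2 ⊢
        have e1 : |0 - ψ g| = ψ g := by rw [zero_sub, abs_neg]; exact abs_of_nonneg (h0 _)
        have e2 : |(0 : ℝ) - 1| = 1 := by norm_num
        have e3 : |0 - m * 0 - (ψ g - m * 1)| = ψ g - m := by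
          rw [abs_of_nonpos (by linarith)]
          ring
        rw [e1, e2, e3]
        ring
      · simp only [ψ', hI0 _ h1, hI0 _ h2, hz _ h1, hz _ h2]
        simp
    rw [hsum, Finset.sum_congr rfl (fun k _ => hdiff k), Finset.sum_add_distrib, ← Finset.mul_sum, mul_add]
    refine add_le_add ?_ hrec
    calc ε * (m * A.card) = m * (ε * A.card) := by ring
      _ ≤ m * ∑ k ∈ K, ∑' g, |I (g * k) - I g| := mul_le_mul_of_nonneg_left hind hmpos.le

/-! ### An elementary inequality -/

theorem sob_elem_aux {p : ℝ} (hp : 1 ≤ p) {δ : ℝ} (hδ : 0 < δ) {a b : ℝ} (hb : 0 ≤ b) (hab : b ≤ a) :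
    a ^ p - b ^ p ≤ p * δ ^ (1 - p) * (a - b) ^ p + p * δ * a ^ p := by
  have hp0 : 0 < p := by linarith
  rcases hb.eq_or_lt with h0 | h0
  · rcases (hb.trans hab).eq_or_lt with ha | ha
    · rw [← ha, ← h0, sub_self]
      rw [sub_self, Real.zero_rpow hp0.ne']
      simp
    · have hA : 0 < a := ha
      have h1 : a ^ p - b ^ p ≤ p * ((a - b) * a ^ (p - 1)) := by
        rw [← h0, Real.zero_rpow hp0.ne', sub_zero, sub_zero, ← Real.rpow_one_add' hA.le (by linarith)]
        rw [show 1 + (p - 1) = p by ring]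
        have : 0 ≤ a ^ p := Real.rpow_nonneg hA.le _
        nlinarith
      have h2 : (a - b) * a ^ (p - 1) ≤ δ ^ (1 - p) * (a - b) ^ p + δ * a ^ p := by
        have hd : 0 ≤ a - b := by linarith
        by_cases h : a - b ≤ δ * a
        · have : (a - b) * a ^ (p - 1) ≤ δ * a ^ p := by
            calc (a - b) * a ^ (p - 1) ≤ δ * a * a ^ (p - 1) :=
                  mul_le_mul_of_nonneg_right h (Real.rpow_nonneg hA.le _)
              _ = δ * (a ^ (1 : ℝ) * a ^ (p - 1)) := by rw [Real.rpow_one]; ring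
              _ = δ * a ^ p := by rw [← Real.rpow_add hA]; congr 2; ring
          have h3 : 0 ≤ δ ^ (1 - p) * (a - b) ^ p := mul_nonneg (Real.rpow_nonneg hδ.le _) (Real.rpow_nonneg hd _)
          linarith
        · push Not at h
          have hd' : 0 < a - b := lt_of_le_of_lt (by positivity) h
          have h3 : a ≤ (a - b) / δ := by
            rw [le_div_iff₀ hδ]
            linarith
          have h4 : a ^ (p - 1) ≤ ((a - b) / δ) ^ (p - 1) := Real.rpow_le_rpow hA.le h3 (by linarith)
          have h5 : (a - b) * ((a - b) / δ) ^ (p - 1) = δ ^ (1 - p) * (a - b) ^ p := by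
            rw [Real.div_rpow hd'.le hδ.le, show (1 - p) = -(p - 1) by ring, Real.rpow_neg hδ.le]
            have : (a - b) ^ p = (a - b) * (a - b) ^ (p - 1) := by
              nth_rewrite 2 [← Real.rpow_one (a - b)]
              rw [← Real.rpow_add hd']
              congr 1
              ring
            rw [this]
            field_simp
          have h6 : 0 ≤ δ * a ^ p := mul_nonneg hδ.le (Real.rpow_nonneg hA.le _)
          have h7 := mul_le_mul_of_nonneg_left h4 hd
          linarith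
      calc a ^ p - b ^ p ≤ p * ((a - b) * a ^ (p - 1)) := h1
        _ ≤ p * (δ ^ (1 - p) * (a - b) ^ p + δ * a ^ p) := mul_le_mul_of_nonneg_left h2 hp0.le
        _ = _ := by ring
  · have hA : 0 < a := lt_of_lt_of_le h0 hab
    have h1 : a ^ p - b ^ p ≤ p * ((a - b) * a ^ (p - 1)) := by
      have hs : -1 ≤ b / a - 1 := by
        have : 0 ≤ b / a := div_nonneg hb hA.le
        linarith
      have hB := one_add_mul_self_le_rpow_one_add hs hp
      rw [show 1 + (b / a - 1) = b / a by ring, Real.div_rpow hb hA.le] at hB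
      have hap : 0 < a ^ p := Real.rpow_pos_of_pos hA _
      have h2 : (1 + p * (b / a - 1)) * a ^ p ≤ b ^ p := by
        rwa [le_div_iff₀ hap] at hB
      have h3 : a ^ p = a * a ^ (p - 1) := by
        nth_rewrite 2 [← Real.rpow_one a]
        rw [← Real.rpow_add hA]
        congr 1
        ring
      have h4 : (b / a - 1) * a ^ p = -((a - b) * a ^ (p - 1)) := by
        rw [h3]
        field_simp
        ring
      have h5 : (1 + p * (b / a - 1)) * a ^ p = a ^ p - p * ((a - b) * a ^ (p - 1)) := by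
        rw [add_mul, one_mul, mul_assoc, h4]
        ring
      linarith
    have h2 : (a - b) * a ^ (p - 1) ≤ δ ^ (1 - p) * (a - b) ^ p + δ * a ^ p := by
      have hd : 0 ≤ a - b := by linarith
      by_cases h : a - b ≤ δ * a
      · have : (a - b) * a ^ (p - 1) ≤ δ * a ^ p := by
          calc (a - b) * a ^ (p - 1) ≤ δ * a * a ^ (p - 1) :=
                mul_le_mul_of_nonneg_right h (Real.rpow_nonneg hA.le _)
            _ = δ * (a ^ (1 : ℝ) * a ^ (p - 1)) := by rw [Real.rpow_one]; ring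
            _ = δ * a ^ p := by rw [← Real.rpow_add hA]; congr 2; ring
        have h3 : 0 ≤ δ ^ (1 - p) * (a - b) ^ p := mul_nonneg (Real.rpow_nonneg hδ.le _) (Real.rpow_nonneg hd _)
        linarith
      · push Not at h
        have hd' : 0 < a - b := lt_of_le_of_lt (by positivity) h
        have h3 : a ≤ (a - b) / δ := by
          rw [le_div_iff₀ hδ]
          linarith
        have h4 : a ^ (p - 1) ≤ ((a - b) / δ) ^ (p - 1) := Real.rpow_le_rpow hA.le h3 (by linarith)
        have h5 : (a - b) * ((a - b) / δ) ^ (p - 1) = δ ^ (1 - p) * (a - b) ^ p := by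
          rw [Real.div_rpow hd'.le hδ.le, show (1 - p) = -(p - 1) by ring, Real.rpow_neg hδ.le]
          have : (a - b) ^ p = (a - b) * (a - b) ^ (p - 1) := by
            nth_rewrite 2 [← Real.rpow_one (a - b)]
            rw [← Real.rpow_add hd']
            congr 1
            ring
          rw [this]
          field_simp
        have h6 : 0 ≤ δ * a ^ p := mul_nonneg hδ.le (Real.rpow_nonneg hA.le _)
        have h7 := mul_le_mul_of_nonneg_left h4 hd
        linarith
    calc a ^ p - b ^ p ≤ p * ((a - b) * a ^ (p - 1)) := h1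
      _ ≤ p * (δ ^ (1 - p) * (a - b) ^ p + δ * a ^ p) := mul_le_mul_of_nonneg_left h2 hp0.le
      _ = _ := by ring

/-- Step (2). -/
theorem sob_elem {p : ℝ} (hp : 1 ≤ p) {δ : ℝ} (hδ : 0 < δ) {a b : ℝ} (ha : 0 ≤ a) (hb : 0 ≤ b) :
    |a ^ p - b ^ p| ≤ p * δ ^ (1 - p) * |a - b| ^ p + p * δ * (a ^ p + b ^ p) := by
  have hp0 : 0 < p := by linarith
  have hap : 0 ≤ a ^ p := Real.rpow_nonneg ha _
  have hbp : 0 ≤ b ^ p := Real.rpow_nonneg hb _
  rcases le_total b a with h | h
  · have h1 := sob_elem_aux hp hδ hb h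
    have h2 : b ^ p ≤ a ^ p := Real.rpow_le_rpow hb h hp0.le
    rw [abs_of_nonneg (by linarith), abs_of_nonneg (sub_nonneg.2 h)]
    have : 0 ≤ p * δ * b ^ p := by positivity
    nlinarith
  · have h1 := sob_elem_aux hp hδ ha h
    have h2 : a ^ p ≤ b ^ p := Real.rpow_le_rpow ha h hp0.le
    rw [abs_sub_comm, abs_sub_comm a b, abs_of_nonneg (by linarith), abs_of_nonneg (sub_nonneg.2 h)]
    have : 0 ≤ p * δ * a ^ p := by positivity
    nlinarith

/-- Step (3). -/
theorem sob_fin {G : Type*} [Group G] {K : Finset G} {ε : ℝ} (hε : 0 < ε)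
    (hK : ∀ A : Finset G, (1 + ε) * A.card ≤ ({g | ∃ a ∈ A, ∃ k ∈ K, g = a * k} : Set G).ncard)
    {p : ℝ} (hp : 1 ≤ p) : ∃ C : ℝ, 0 ≤ C ∧ ∀ φ : G → ℝ, (∀ g, 0 ≤ φ g) → (Function.support φ).Finite →
      ∑' g, φ g ^ p ≤ C * ∑ k ∈ K, ∑' g, |φ (g * k) - φ g| ^ p := by
  have hp0 : 0 < p := by linarith
  set δ : ℝ := ε / (4 * p * (K.card + 1)) with hδdef
  have hc0 : (0 : ℝ) ≤ K.card := Nat.cast_nonneg _
  have hδ : 0 < δ := by positivity
  have hδ2 : 2 * p * δ * K.card ≤ ε / 2 := by
    have h1 : 2 * p * δ * (K.card + 1) = ε / 2 := by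
      rw [hδdef]
      field_simp
      norm_num
    have h2 : 0 ≤ 2 * p * δ := by positivity
    nlinarith
  refine ⟨2 / ε * (p * δ ^ (1 - p)), by positivity, fun φ h0 hfin => ?_⟩
  have hψ : (Function.support fun g => φ g ^ p).Finite := by
    refine hfin.subset fun g hg hz => hg ?_
    show φ g ^ p = 0
    rw [hz, Real.zero_rpow hp0.ne']
  have hiso := sob_iso hK _ (fun g => φ g ^ p) (fun g => Real.rpow_nonneg (h0 g) _) hψ rfl
  have hD : ∀ k, (Function.support fun g => |φ (g * k) - φ g| ^ p).Finite := by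
    intro k
    refine (sob_supp_diff hfin k).subset fun g hg hz => hg ?_
    show |φ (g * k) - φ g| ^ p = 0
    rw [show |φ (g * k) - φ g| = 0 from hz, Real.zero_rpow hp0.ne']
  have hstep : ∀ k ∈ K, ∑' g, |φ (g * k) ^ p - φ g ^ p| ≤
      p * δ ^ (1 - p) * ∑' g, |φ (g * k) - φ g| ^ p + p * δ * (2 * ∑' g, φ g ^ p) := by
    intro k _
    have s1 := (sob_summable (hD k)).mul_left (p * δ ^ (1 - p))
    have s2 : Summable fun g => φ (g * k) ^ p := sob_summable (sob_supp_mul hψ k)
    have s3 : Summable fun g => φ g ^ p := sob_summable hψ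
    have s4 := (s2.add s3).mul_left (p * δ)
    have e : ∑' g, (p * δ ^ (1 - p) * |φ (g * k) - φ g| ^ p + p * δ * (φ (g * k) ^ p + φ g ^ p)) =
        p * δ ^ (1 - p) * ∑' g, |φ (g * k) - φ g| ^ p + p * δ * (2 * ∑' g, φ g ^ p) := by
      rw [s1.tsum_add s4, tsum_mul_left, tsum_mul_left, s2.tsum_add s3,
        sob_tsum_mul (fun g => φ g ^ p) k]
      ring
    rw [← e]
    exact (sob_summable (sob_supp_diff hψ k)).tsum_le_tsum (fun g => sob_elem hp hδ (h0 _) (h0 _)) (s1.add s4)
  have hall := hiso.trans (Finset.sum_le_sum hstep)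
  rw [Finset.sum_add_distrib, ← Finset.mul_sum, Finset.sum_const, nsmul_eq_mul] at hall
  set S := ∑' g, φ g ^ p with hS
  set E := ∑ k ∈ K, ∑' g, |φ (g * k) - φ g| ^ p with hE
  have hS0 : 0 ≤ S := tsum_nonneg fun g => Real.rpow_nonneg (h0 g) _
  have h1 : (K.card : ℝ) * (p * δ * (2 * S)) ≤ ε / 2 * S := by
    have := mul_le_mul_of_nonneg_right hδ2 hS0
    linarith
  have h2 : ε / 2 * S ≤ p * δ ^ (1 - p) * E := by linarith
  have h3 : S = 2 / ε * (ε / 2 * S) := by field_simp
  rw [h3, mul_assoc]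
  exact mul_le_mul_of_nonneg_left h2 (by positivity)

/-- If `f` tends to `a` at infinity and has finite `p`-energy, then `f - a` is `p`-summable. -/
theorem sobolev {G : Type*} [Group G] (hna : NonAmen G) {p : ℝ} (hp : 1 ≤ p) {f : G → ℝ}
    (hf : ∀ h : G, Summable fun g => |f (g * h) - f g| ^ p) {a : ℝ}
    (ha : ∀ ε > 0, {g | ε ≤ |f g - a|}.Finite) : Summable fun g => |f g - a| ^ p := by
  classical
  obtain ⟨K, ε, hε, hK⟩ := hna
  have hp0 : 0 < p := by linarith
  obtain ⟨C, hC0, hC⟩ := sob_fin hε hK hp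
  set B : ℝ := C * ∑ k ∈ K, ∑' g, |f (g * k) - f g| ^ p with hB
  have key : ∀ δ : ℝ, 0 < δ → ∀ F : Finset G, ∑ g ∈ F, (max (|f g - a| - δ) 0) ^ p ≤ B := by
    intro δ hδ F
    set φ : G → ℝ := fun g => max (|f g - a| - δ) 0 with hφ
    have h0 : ∀ g, 0 ≤ φ g := fun g => le_max_right _ _
    have hfin : (Function.support φ).Finite := by
      refine (ha δ hδ).subset fun g hg => ?_
      by_contra h
      rw [Set.mem_ofPred_eq, not_le] at h
      exact hg (max_eq_right (by linarith))
    have hψ : (Function.support fun g => φ g ^ p).Finite := by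
      refine hfin.subset fun g hg hz => hg ?_
      show φ g ^ p = 0
      rw [hz, Real.zero_rpow hp0.ne']
    have h1 : ∑ g ∈ F, φ g ^ p ≤ ∑' g, φ g ^ p :=
      (sob_summable hψ).sum_le_tsum F (fun g _ => Real.rpow_nonneg (h0 g) _)
    refine h1.trans ((hC φ h0 hfin).trans ?_)
    rw [hB]
    refine mul_le_mul_of_nonneg_left (Finset.sum_le_sum fun k _ => ?_) hC0
    have hle : ∀ g, |φ (g * k) - φ g| ^ p ≤ |f (g * k) - f g| ^ p := by
      intro g
      refine Real.rpow_le_rpow (abs_nonneg _) ?_ hp0.le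
      have h2 := abs_max_sub_max_le_abs (|f (g * k) - a| - δ) (|f g - a| - δ) 0
      refine h2.trans ?_
      have h3 := abs_abs_sub_abs_le (f (g * k) - a) (f g - a)
      have h4 : |f (g * k) - a| - δ - (|f g - a| - δ) = |f (g * k) - a| - |f g - a| := by ring
      have h5 : f (g * k) - a - (f g - a) = f (g * k) - f g := by ring
      rw [h4]
      rw [h5] at h3
      exact h3
    exact (Summable.of_nonneg_of_le (fun g => Real.rpow_nonneg (abs_nonneg _) _) hle (hf k)).tsum_le_tsum hle (hf k)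
  refine summable_of_sum_le (c := B) (fun g => Real.rpow_nonneg (abs_nonneg _) _) fun F => ?_
  have hlim : Filter.Tendsto (fun δ : ℝ => ∑ g ∈ F, (max (|f g - a| - δ) 0) ^ p) (nhdsWithin 0 (Set.Ioi 0))
      (nhds (∑ g ∈ F, |f g - a| ^ p)) := by
    have hcont : Continuous fun δ : ℝ => ∑ g ∈ F, (max (|f g - a| - δ) 0) ^ p := by
      refine continuous_finsetSum _ fun g _ => ?_
      exact (((continuous_const.sub continuous_id).max continuous_const).rpow_const fun _ => Or.inr hp0.le)
    have h1 := (hcont.tendsto 0).mono_left (nhdsWithin_le_nhds (s := Set.Ioi (0 : ℝ)))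
    have h2 : ∑ g ∈ F, (max (|f g - a| - 0) 0) ^ p = ∑ g ∈ F, |f g - a| ^ p := by
      refine Finset.sum_congr rfl fun g _ => ?_
      rw [sub_zero, max_eq_left (abs_nonneg _)]
    rw [← h2]
    exact h1
  exact le_of_tendsto hlim (Filter.eventually_of_mem self_mem_nhdsWithin fun δ hδ => key δ hδ F)

end Pool.Agent.H25.Lp
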