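import Pool.Agent.H25.Lp.Lim
import Pool.Agent.H25.Lp.Sob

open Set

namespace Pool.Agent.H25.Lp

open Pool.Agent.H29

theorem rankOne_of_lp {G : Type*} {X : Type*} [Group G] [MetricSpace X] [IsCAT0 X]
    [LocallyCompactSpace X] [Nonempty X] [MulAction G X] [IsIsometricSMul G X]
    [ProperlyDiscontinuousSMul G X] (hcoc : Cocompact G X) (hna : NonAmen G)
    {p : ℝ} (hp : 1 ≤ p) (f : G → ℝ) (hf : ∀ h : G, Summable fun g => |f (g * h) - f g| ^ p)
    (hne : ∀ c : ℝ, ¬ Summable fun g => |f g - c| ^ p) :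
    ∃ g : G, IsRankOne (X := X) g := by
  have : ProperSpace X := hcoc.properSpace
  by_contra hno
  obtain ⟨x⟩ := (inferInstance : Nonempty X)
  obtain ⟨a, ha⟩ := exists_limit hcoc hna hno hp hf x
  exact hne a (sobolev hna hp hf ha)

end Pool.Agent.H25.Lp
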